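import Mathlib

/-! Counting points on `y ^ 2 + x y = x ^ 3 + A x ^ 2 + B` over a finite field of
characteristic two by an additive character. -/

set_option linter.unusedSectionVars false

namespace Pool.Agent.Lib.MP_788af2_nt.DW

variable {K : Type*} [Field K] [CharP K 2]

/-- The sum of the first `n` conjugates. -/
def trn (n : ℕ) (z : K) : K := ∑ i ∈ Finset.range n, z ^ 2 ^ i

theorem trn_add (n : ℕ) (x y : K) : trn n (x + y) = trn n x + trn n y := by
  simp only [trn, add_pow_char_pow, Finset.sum_add_distrib]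

theorem trn_sq_add (n : ℕ) (z : K) : trn n z ^ 2 + trn n z = z ^ 2 ^ n + z := by
  induction n with
  | zero => simp [trn, CharTwo.add_self_eq_zero]
  | succ n ih =>
    rw [trn, Finset.sum_range_succ, ← trn, CharTwo.add_sq, ← pow_mul, ← pow_succ]
    linear_combination (exp := 1) ih + (z ^ 2 ^ n) * (CharTwo.two_eq_zero (R := K))

theorem trn_sq (n : ℕ) (z : K) : trn n (z ^ 2) = trn n z ^ 2 := by
  simp only [trn, CharTwo.sum_sq, ← pow_mul, mul_comm]

theorem trn_wp (n : ℕ) (z : K) : trn n (z ^ 2 + z) = z ^ 2 ^ n + z := by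
  rw [trn_add, trn_sq, trn_sq_add]

theorem eq_zero_or_one {u : K} (h : u ^ 2 + u = 0) : u = 0 ∨ u = 1 := by
  have : u * (u - 1) = 0 := by linear_combination h - u * (CharTwo.two_eq_zero (R := K))
  exact (mul_eq_zero.mp this).imp id sub_eq_zero.mp

theorem trn_eq_zero_or_one {n : ℕ} {z : K} (h : z ^ 2 ^ n = z) : trn n z = 0 ∨ trn n z = 1 :=
  eq_zero_or_one (by rw [trn_sq_add, h, CharTwo.add_self_eq_zero])

open Classical in
/-- The additive character of level `n`. -/
noncomputable def psi (n : ℕ) (z : K) : ℤ := if trn n z = 0 then 1 else -1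

theorem psi_add {n : ℕ} {x y : K} (hx : x ^ 2 ^ n = x) (hy : y ^ 2 ^ n = y) :
    psi n (x + y) = psi n x * psi n y := by
  unfold psi
  rw [trn_add]
  rcases trn_eq_zero_or_one hx with h | h <;> rcases trn_eq_zero_or_one hy with h' | h' <;>
    simp [h, h', CharTwo.add_self_eq_zero]

theorem psi_zero (n : ℕ) : psi n (0 : K) = 1 := by simp [psi, trn]

theorem psi_sq (n : ℕ) (z : K) : psi n (z ^ 2) = psi n z := by
  classical
  unfold psi
  exact if_congr (by rw [trn_sq, pow_eq_zero_iff two_ne_zero]) rfl rfl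

theorem psi_add_wp {n : ℕ} (z : K) {w : K} (hw : w ^ 2 ^ n = w) :
    psi n (z + (w ^ 2 + w)) = psi n z := by
  unfold psi
  rw [trn_add n z, trn_wp, hw, CharTwo.add_self_eq_zero, add_zero]

theorem abs_psi (n : ℕ) (z : K) : |psi n z| = 1 := by
  unfold psi
  split_ifs <;> simp

theorem psi_map {L : Type*} [Field L] [CharP L 2] (f : K →+* L) (n : ℕ) (z : K) :
    psi n (f z) = psi n z := by
  have : trn n (f z) = f (trn n z) := by simp [trn]
  classical
  unfold psi
  exact if_congr (by rw [this, map_eq_zero]) rfl rfl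

theorem psi_sum {ι : Type*} {n : ℕ} (s : Finset ι) {z : ι → K} (h : ∀ i ∈ s, z i ^ 2 ^ n = z i) :
    psi n (∑ i ∈ s, z i) = ∏ i ∈ s, psi n (z i) := by
  classical
  induction s using Finset.induction_on with
  | empty => simp [psi_zero]
  | insert a s ha ih =>
    rw [Finset.sum_insert ha, Finset.prod_insert ha, psi_add (h a (by simp)),
      ih fun i hi => h i (by simp [hi])]
    rw [sum_pow_char_pow]
    exact Finset.sum_congr rfl fun i hi => h i (by simp [hi])

variable [Fintype K] [DecidableEq K] {n : ℕ}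

omit [CharP K 2] [DecidableEq K] in
theorem pow_fix (hK : Fintype.card K = 2 ^ n) (z : K) : z ^ 2 ^ n = z := by
  rw [← hK, FiniteField.pow_card]

theorem card_wp_fiber (w : K) :
    (Finset.univ.filter fun u : K => u ^ 2 + u = w ^ 2 + w).card = 2 := by
  rw [Finset.card_eq_two]
  refine ⟨w, w + 1, by simp, ?_⟩
  ext u
  simp only [Finset.mem_filter, Finset.mem_univ, true_and, Finset.mem_insert, Finset.mem_singleton]
  have h2 := CharTwo.two_eq_zero (R := K)
  constructor
  · intro h
    rcases eq_zero_or_one (u := u + w) (by linear_combination h + (u * w + w ^ 2 + w) * h2)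
      with h1 | h1
    · left
      linear_combination h1 - w * h2
    · right
      linear_combination h1 - w * h2 + w * h2 - w * h2 + w * h2 - w * h2
  · rintro (rfl | rfl)
    · rfl
    · linear_combination (w + 1) * h2

/-- The additive form of the theorem 90 of Hilbert. -/
theorem exists_wp (hK : Fintype.card K = 2 ^ n) {z : K} (hz : trn n z = 0) :
    ∃ w : K, w ^ 2 + w = z := by
  have hn : n ≠ 0 := by
    rintro rfl
    have := Fintype.one_lt_card (α := K)
    omega
  obtain ⟨m, rfl⟩ := Nat.exists_eq_succ_of_ne_zero hn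
  let T := Finset.univ.filter fun z : K => trn (m + 1) z = 0
  let W := Finset.univ.image fun w : K => w ^ 2 + w
  have hWT : W ⊆ T := by
    intro z hz
    obtain ⟨w, -, rfl⟩ := Finset.mem_image.mp hz
    simp only [T, Finset.mem_filter, Finset.mem_univ, true_and, trn_wp, pow_fix hK,
      CharTwo.add_self_eq_zero]
  have hW : 2 ^ m ≤ W.card := by
    have h1 := Finset.card_le_mul_card_image (f := fun w : K => w ^ 2 + w) Finset.univ 2 (by
      intro b hb
      obtain ⟨w, -, rfl⟩ := Finset.mem_image.mp hb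
      exact (card_wp_fiber w).le)
    rw [Finset.card_univ, hK, pow_succ] at h1
    change _ ≤ 2 * W.card at h1
    omega
  have hT : T.card ≤ 2 ^ m := by
    let p : Polynomial K := Polynomial.X ^ 2 ^ m + ∑ i ∈ Finset.range m, Polynomial.X ^ 2 ^ i
    have hd : (∑ i ∈ Finset.range m, Polynomial.X ^ 2 ^ i : Polynomial K).degree <
        (2 ^ m : ℕ) := by
      refine (Polynomial.degree_sum_le _ _).trans_lt ((Finset.sup_lt_iff (WithBot.bot_lt_coe _)).mpr ?_)
      intro i hi
      rw [Polynomial.degree_X_pow]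
      exact_mod_cast Nat.pow_lt_pow_right one_lt_two (Finset.mem_range.mp hi)
    have hm : p.Monic := Polynomial.monic_X_pow_add hd
    have hdeg : p.natDegree = 2 ^ m := by
      rw [Polynomial.natDegree_add_eq_left_of_degree_lt (by rwa [Polynomial.degree_X_pow]),
        Polynomial.natDegree_X_pow]
    rw [← hdeg]
    refine Polynomial.card_le_degree_of_subset_roots fun z hz => ?_
    have hz' : trn (m + 1) z = 0 := (Finset.mem_filter.mp hz).2
    rw [Polynomial.mem_roots hm.ne_zero, Polynomial.IsRoot.def, ← hz', trn, Finset.sum_range_succ,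
      add_comm]
    simp [p, Polynomial.eval_finsetSum]
  have h := Finset.eq_of_subset_of_card_le hWT (hT.trans hW)
  have hz' : z ∈ W := by rw [h]; exact Finset.mem_filter.mpr ⟨Finset.mem_univ _, hz⟩
  obtain ⟨w, -, hw⟩ := Finset.mem_image.mp hz'
  exact ⟨w, hw⟩

theorem card_wp (hK : Fintype.card K = 2 ^ n) (z : K) :
    ((Finset.univ.filter fun u : K => u ^ 2 + u = z).card : ℤ) = 1 + psi n z := by
  unfold psi
  split_ifs with h
  · obtain ⟨w, rfl⟩ := exists_wp hK h
    rw [card_wp_fiber]
    norm_num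
  · rw [Finset.filter_eq_empty_iff.mpr]
    · simp
    · rintro u - rfl
      exact h (by rw [trn_wp, pow_fix hK, CharTwo.add_self_eq_zero])

omit [DecidableEq K] in
theorem sq_bijective : Function.Bijective fun x : K => x ^ 2 :=
  (Finite.injective_iff_bijective).mp (frobenius_inj K 2)

theorem sum_psi_sq (hK : Fintype.card K = 2 ^ n) (A c : K) :
    ∑ x : Kˣ, psi n (A + x + c ^ 2 / x) = ∑ x : Kˣ, psi n (A + x + c / x) := by
  have hb : Function.Bijective fun x : Kˣ => x ^ 2 :=
    (Finite.injective_iff_bijective).mp fun x y h => Units.ext (sq_bijective.1 (by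
      simpa using congrArg Units.val h))
  rw [← hb.sum_comp]
  refine Finset.sum_congr rfl fun x _ => ?_
  rw [← psi_add_wp (A + x + c / x) (pow_fix hK (x + c / x))]
  congr 1
  rw [Units.val_pow_eq_pow_val, CharTwo.add_sq, div_pow]
  linear_combination (-(x + c / x)) * (CharTwo.two_eq_zero (R := K))

theorem sum_psi_pow (hK : Fintype.card K = 2 ^ n) (A c : K) (j : ℕ) :
    ∑ x : Kˣ, psi n (A + x + c ^ 2 ^ j / x) = ∑ x : Kˣ, psi n (A + x + c / x) := by
  induction j with
  | zero => simp
  | succ j ih => rw [pow_succ, pow_mul, sum_psi_sq hK, ih]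

/-- The point count as a twisted Kloosterman sum. -/
theorem card_curve (hK : Fintype.card K = 2 ^ n) (A B : K) (j : ℕ) :
    ((Finset.univ.filter fun p : K × K =>
      p.2 ^ 2 + p.1 * p.2 = p.1 ^ 3 + A * p.1 ^ 2 + B).card : ℤ) =
      2 ^ n + ∑ x : Kˣ, psi n (A + x + B ^ 2 ^ j / x) := by
  obtain ⟨β, rfl⟩ := (sq_bijective (K := K)).2 B
  simp only []
  rw [sum_psi_pow hK, sum_psi_sq hK, Finset.card_filter, Nat.cast_sum, Fintype.sum_prod_type,
    ← Finset.add_sum_erase _ _ (Finset.mem_univ (0 : K))]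
  have h0 : ∑ y : K, ((if y ^ 2 + 0 * y = 0 ^ 3 + A * 0 ^ 2 + β ^ 2 then 1 else 0 : ℕ) : ℤ) = 1 := by
    rw [Finset.sum_eq_single β (fun y _ hy => by
      rw [if_neg, Nat.cast_zero]
      exact fun h => hy (sq_bijective.1 (by simpa using h))) (by simp)]
    simp
  have h1 : ∀ x : Kˣ, ∑ y : K, ((if y ^ 2 + x * y = x ^ 3 + A * x ^ 2 + β ^ 2 then 1 else 0 : ℕ) :
      ℤ) = 1 + psi n (A + x + β / x) := by
    intro x
    have hx : (x : K) ≠ 0 := x.ne_zero
    rw [← psi_add_wp _ (pow_fix hK (β / x)), ← card_wp hK, Finset.card_filter, Nat.cast_sum,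
      ← Equiv.sum_comp (Equiv.mulLeft₀ (x : K) hx)]
    refine Finset.sum_congr rfl fun w _ => ?_
    congr 1
    refine if_congr ?_ rfl rfl
    have h2 : A + x + β / x + ((β / x) ^ 2 + β / x) = (x ^ 3 + A * x ^ 2 + β ^ 2) / x ^ 2 := by
      have : A + x + β / x + ((β / x) ^ 2 + β / x) = A + x + (β / x) ^ 2 := by
        linear_combination (β / x) * (CharTwo.two_eq_zero (R := K))
      rw [this]
      field_simp
      ring
    rw [h2, eq_div_iff (pow_ne_zero 2 hx), Equiv.mulLeft₀_apply]
    constructor <;> intro h <;> linear_combination h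
  have h2 : ∑ x ∈ Finset.univ.erase (0 : K), ∑ y : K,
      ((if y ^ 2 + x * y = x ^ 3 + A * x ^ 2 + β ^ 2 then 1 else 0 : ℕ) : ℤ) =
      ∑ x : Kˣ, (1 + psi n (A + x + β / x)) :=
    (Finset.sum_bij (fun (x : Kˣ) _ => (x : K)) (fun x _ => by simp)
      (fun x _ y _ h => Units.ext h) (fun b hb => ⟨Units.mk0 b (by simpa using hb), by simp, rfl⟩)
      fun x _ => (h1 x).symm).symm
  have h3 : 1 ≤ 2 ^ n := Nat.one_le_two_pow
  rw [h0, h2, Finset.sum_add_distrib, Finset.sum_const, Finset.card_univ, Fintype.card_units, hK,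
    nsmul_eq_mul, Nat.cast_sub h3]
  push_cast
  ring

end Pool.Agent.Lib.MP_788af2_nt.DW
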