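import Pool.Agent.Lib.MP_788af2_nt.DW.Fred

/-! Entire power series over a complete normed ring and their values. -/

open Filter Topology PowerSeries Finset.HasAntidiagonal

namespace Pool.Agent.Lib.MP_788af2_nt.DW

variable {R : Type*} [NormedCommRing R]

/-- The series converges everywhere. -/
def Entire (f : R⟦X⟧) : Prop := ∀ ρ : ℝ, 0 < ρ → ∃ c : ℝ, ∀ n, ‖coeff n f‖ ≤ c * ρ ^ n

/-- The value of a series at a point. -/
noncomputable def ev (x : R) (f : R⟦X⟧) : R := ∑' n, coeff n f * x ^ n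

theorem Entire.summable_norm [NormOneClass R] {f : R⟦X⟧} (hf : Entire f) (x : R) :
    Summable fun n => ‖coeff n f * x ^ n‖ := by
  have hx : 0 < ‖x‖ + 1 := by positivity
  obtain ⟨c, hc⟩ := hf (1 / 2 / (‖x‖ + 1)) (by positivity)
  have hc0 : 0 ≤ c := by simpa using (norm_nonneg _).trans (hc 0)
  refine Summable.of_nonneg_of_le (fun n => norm_nonneg _) (fun n => ?_)
    (summable_geometric_two.mul_left c)
  calc ‖coeff n f * x ^ n‖ ≤ ‖coeff n f‖ * ‖x‖ ^ n :=
        (norm_mul_le _ _).trans (mul_le_mul_of_nonneg_left (norm_pow_le _ _) (norm_nonneg _))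
    _ ≤ (c * (1 / 2 / (‖x‖ + 1)) ^ n) * (‖x‖ + 1) ^ n := by
        refine mul_le_mul (hc n) (pow_le_pow_left₀ (norm_nonneg _) (by linarith) n)
          (by positivity) (by positivity)
    _ = c * (1 / 2) ^ n := by
        rw [mul_assoc, ← mul_pow, div_mul_cancel₀ _ hx.ne']

theorem Entire.add {f g : R⟦X⟧} (hf : Entire f) (hg : Entire g) : Entire (f + g) := by
  intro ρ hρ
  obtain ⟨c, hc⟩ := hf ρ hρ
  obtain ⟨c', hc'⟩ := hg ρ hρ
  refine ⟨c + c', fun n => ?_⟩
  rw [map_add, add_mul]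
  exact (norm_add_le _ _).trans (add_le_add (hc n) (hc' n))

theorem Entire.neg {f : R⟦X⟧} (hf : Entire f) : Entire (-f) := by
  intro ρ hρ
  obtain ⟨c, hc⟩ := hf ρ hρ
  exact ⟨c, fun n => by rw [map_neg, norm_neg]; exact hc n⟩

theorem Entire.mul [IsUltrametricDist R] {f g : R⟦X⟧} (hf : Entire f) (hg : Entire g) :
    Entire (f * g) := by
  intro ρ hρ
  obtain ⟨c, hc⟩ := hf ρ hρ
  obtain ⟨c', hc'⟩ := hg ρ hρ
  have hc0 : 0 ≤ c := by simpa using (norm_nonneg _).trans (hc 0)
  have hc0' : 0 ≤ c' := by simpa using (norm_nonneg _).trans (hc' 0)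
  refine ⟨c * c', fun n => ?_⟩
  rw [coeff_mul]
  refine IsUltrametricDist.norm_sum_le_of_forall_le_of_nonneg (by positivity) fun p hp => ?_
  rw [← mem_antidiagonal.mp hp]
  calc ‖coeff p.1 f * coeff p.2 g‖ ≤ (c * ρ ^ p.1) * (c' * ρ ^ p.2) :=
        (norm_mul_le _ _).trans (mul_le_mul (hc _) (hc' _) (norm_nonneg _) (by positivity))
    _ = _ := by ring

theorem entire_coe (p : Polynomial R) : Entire (p : R⟦X⟧) := by
  intro ρ hρ
  refine ⟨∑ n ∈ p.support, ‖p.coeff n‖ / ρ ^ n, fun n => ?_⟩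
  rw [Polynomial.coeff_coe, ← div_le_iff₀ (by positivity)]
  by_cases hn : n ∈ p.support
  · exact Finset.single_le_sum (f := fun n => ‖p.coeff n‖ / ρ ^ n) (fun i _ => by positivity) hn
  · rw [Polynomial.notMem_support_iff.mp hn, norm_zero, zero_div]
    exact Finset.sum_nonneg fun i _ => by positivity

theorem entire_one : Entire (1 : R⟦X⟧) := by simpa using entire_coe (1 : Polynomial R)

theorem Entire.pow [IsUltrametricDist R] {f : R⟦X⟧} (hf : Entire f) (n : ℕ) : Entire (f ^ n) := by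
  induction n with
  | zero => simpa using entire_one
  | succ n ih => rw [pow_succ]; exact ih.mul hf

theorem Entire.rescale [NormOneClass R] {f : R⟦X⟧} (hf : Entire f) (a : R) :
    Entire (rescale a f) := by
  intro ρ hρ
  have ha : 0 < ‖a‖ + 1 := by positivity
  obtain ⟨c, hc⟩ := hf (ρ / (‖a‖ + 1)) (by positivity)
  have hc0 : 0 ≤ c := by simpa using (norm_nonneg _).trans (hc 0)
  refine ⟨c, fun n => ?_⟩
  rw [coeff_rescale]
  calc ‖a ^ n * coeff n f‖ ≤ (‖a‖ + 1) ^ n * (c * (ρ / (‖a‖ + 1)) ^ n) :=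
        (norm_mul_le _ _).trans (mul_le_mul ((norm_pow_le _ _).trans
          (pow_le_pow_left₀ (norm_nonneg _) (by linarith) n)) (hc n) (norm_nonneg _)
          (by positivity))
    _ = c * ρ ^ n := by
        rw [mul_left_comm, ← mul_pow, mul_div_cancel₀ _ ha.ne']

theorem ev_rescale (a x : R) (f : R⟦X⟧) : ev x (rescale a f) = ev (a * x) f := by
  unfold ev
  refine tsum_congr fun n => ?_
  rw [coeff_rescale]
  ring

theorem ev_coe (x : R) (p : Polynomial R) : ev x (p : R⟦X⟧) = p.eval x := by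
  unfold ev
  rw [tsum_eq_sum (s := p.support) (fun n hn => by
    rw [Polynomial.coeff_coe, Polynomial.notMem_support_iff.mp hn, zero_mul]),
    Polynomial.eval_eq_sum, Polynomial.sum]
  simp only [Polynomial.coeff_coe]

theorem ev_one (x : R) : ev x 1 = 1 := by simpa using ev_coe x (1 : Polynomial R)

variable [NormOneClass R] [CompleteSpace R]

theorem ev_add {f g : R⟦X⟧} (hf : Entire f) (hg : Entire g) (x : R) :
    ev x (f + g) = ev x f + ev x g := by
  unfold ev
  rw [← (hf.summable_norm x).of_norm.tsum_add (hg.summable_norm x).of_norm]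
  simp only [map_add, add_mul]

theorem ev_mul {f g : R⟦X⟧} (hf : Entire f) (hg : Entire g) (x : R) :
    ev x (f * g) = ev x f * ev x g := by
  unfold ev
  rw [tsum_mul_tsum_eq_tsum_sum_antidiagonal_of_summable_norm (hf.summable_norm x)
    (hg.summable_norm x)]
  refine tsum_congr fun n => ?_
  rw [coeff_mul, Finset.sum_mul]
  refine Finset.sum_congr rfl fun p hp => ?_
  rw [← mem_antidiagonal.mp hp]
  ring

theorem ev_pow [IsUltrametricDist R] {f : R⟦X⟧} (hf : Entire f) (x : R) (n : ℕ) :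
    ev x (f ^ n) = ev x f ^ n := by
  induction n with
  | zero => simpa using ev_one x
  | succ n ih => rw [pow_succ, ev_mul (hf.pow n) hf, ih, pow_succ]

theorem Entire.continuous_ev [IsUltrametricDist R] {f : R⟦X⟧} (hf : Entire f) :
    Continuous fun x => ev x f := by
  rw [continuous_iff_continuousAt]
  intro x
  have hx : 0 < ‖x‖ + 1 := by positivity
  obtain ⟨c, hc⟩ := hf (1 / 2 / (‖x‖ + 1)) (by positivity)
  have hc0 : 0 ≤ c := by simpa using (norm_nonneg _).trans (hc 0)
  refine tendsto_tsum_of_le (b := fun n => c * (1 / 2) ^ n)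
    (summable_geometric_two.mul_left c).tendsto_cofinite_zero ?_ fun n =>
      (continuous_const.mul (continuous_pow n)).tendsto x
  have h1 : ∀ᶠ y in 𝓝 x, ‖y‖ < ‖x‖ + 1 :=
    (continuous_norm.tendsto x).eventually (gt_mem_nhds (by linarith))
  filter_upwards [h1] with y hy n
  calc ‖coeff n f * y ^ n‖ ≤ ‖coeff n f‖ * ‖y‖ ^ n :=
        (norm_mul_le _ _).trans (mul_le_mul_of_nonneg_left (norm_pow_le _ _) (norm_nonneg _))
    _ ≤ (c * (1 / 2 / (‖x‖ + 1)) ^ n) * (‖x‖ + 1) ^ n :=
        mul_le_mul (hc n) (pow_le_pow_left₀ (norm_nonneg _) hy.le n)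
          (by positivity) (by positivity)
    _ = c * (1 / 2) ^ n := by
        rw [mul_assoc, ← mul_pow, div_mul_cancel₀ _ hx.ne']

/-- Orders of vanishing: if `P β = Q η` near `a`, with `β`, `η` continuous and non-zero at `a`,
then `P` and `Q` vanish to the same order at `a`. -/
theorem rootMultiplicity_eq {K : Type*} [NontriviallyNormedField K] {P Q : Polynomial K}
    (hQ : Q ≠ 0) {a : K} {β η : K → K} (hβ : ContinuousAt β a) (hη : ContinuousAt η a)
    (hβ0 : β a ≠ 0) (hη0 : η a ≠ 0) (h : ∀ᶠ x in 𝓝 a, P.eval x * β x = Q.eval x * η x) :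
    P ≠ 0 ∧ P.rootMultiplicity a = Q.rootMultiplicity a := by
  have key : ∀ {P Q : Polynomial K} {β η : K → K} (m : ℕ), ContinuousAt β a → ContinuousAt η a →
      η a ≠ 0 → Q ≠ 0 → (Polynomial.X - Polynomial.C a) ^ m ∣ P →
      (∀ᶠ x in 𝓝 a, P.eval x * β x = Q.eval x * η x) → m ≤ Q.rootMultiplicity a := by
    intro P Q β η m hβ hη hη0 hQ hP h
    by_contra hlt
    obtain ⟨Q', hQ1, hQ2⟩ := Polynomial.exists_eq_pow_rootMultiplicity_mul_and_not_dvd Q hQ a
    set n := Q.rootMultiplicity a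
    obtain ⟨P', hP'⟩ := (pow_dvd_pow _ (show n + 1 ≤ m by omega)).trans hP
    have h1 : ∀ᶠ x in 𝓝[≠] a, (x - a) * P'.eval x * β x = Q'.eval x * η x := by
      filter_upwards [h.filter_mono nhdsWithin_le_nhds, self_mem_nhdsWithin] with x hx hxa
      have h2 : (x - a) ^ n ≠ 0 := pow_ne_zero _ (sub_ne_zero.mpr hxa)
      rw [hP', hQ1] at hx
      simp only [Polynomial.eval_mul, Polynomial.eval_pow, Polynomial.eval_sub, Polynomial.eval_X,
        Polynomial.eval_C] at hx
      apply mul_left_cancel₀ h2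
      linear_combination hx
    have h3 : Tendsto (fun x => (x - a) * P'.eval x * β x) (𝓝[≠] a)
        (𝓝 ((a - a) * P'.eval a * β a)) :=
      ((((continuous_id.sub continuous_const).mul P'.continuous).continuousAt.mul
        hβ).tendsto).mono_left nhdsWithin_le_nhds
    have h4 : Tendsto (fun x => Q'.eval x * η x) (𝓝[≠] a) (𝓝 (Q'.eval a * η a)) :=
      ((Q'.continuous.continuousAt.mul hη).tendsto).mono_left nhdsWithin_le_nhds
    have h5 := tendsto_nhds_unique (h3.congr' h1) h4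
    rw [sub_self, zero_mul, zero_mul] at h5
    exact hQ2 (Polynomial.dvd_iff_isRoot.mpr ((mul_eq_zero.mp h5.symm).resolve_right hη0))
  have hP : P ≠ 0 := by
    rintro rfl
    have := key (Q.rootMultiplicity a + 1) hβ hη hη0 hQ (dvd_zero _) h
    omega
  exact ⟨hP, le_antisymm (key _ hβ hη hη0 hQ (P.pow_rootMultiplicity_dvd a) h)
    (key _ hη hβ hβ0 hP (Q.pow_rootMultiplicity_dvd a) (h.mono fun x hx => hx.symm))⟩

end Pool.Agent.Lib.MP_788af2_nt.DW
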