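import Pool.Agent.Lib.MP_788af2_nt.DW.FredMul
import Pool.Agent.Lib.MP_788af2_nt.DW.Entire

/-! The Fredholm series `det (1 - X M)`: it is entire, its values are determinants, and its
logarithmic derivative is given by the traces of the powers of `M`. -/

open Filter Topology PowerSeries Finset.HasAntidiagonal

namespace Pool.Agent.Lib.MP_788af2_nt.DW

/-- The logarithmic derivative of `det (1 - X A)` for a finite matrix. -/
theorem derivative_charpolyRev {R : Type*} [CommRing R] {n : Type*} [Fintype n] [DecidableEq n]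
    (A : Matrix n n R) : d⁄dX R (A.charpolyRev : R⟦X⟧) =
      -(PowerSeries.mk fun k => (A ^ (k + 1)).trace) * (A.charpolyRev : R⟦X⟧) := by
  let G : Matrix n n R⟦X⟧ := Matrix.of fun i j => PowerSeries.mk fun k => (A ^ (k + 1)) i j
  let A' : Matrix n n R⟦X⟧ := A.map PowerSeries.C
  have hG : (1 - (X : R⟦X⟧) • A') * G = A' := by
    ext i j k
    rw [sub_mul, one_mul, Matrix.smul_mul, Matrix.sub_apply, Matrix.smul_apply, smul_eq_mul,
      map_sub]
    cases k with
    | zero => simp [G, A']
    | succ k =>
      rw [coeff_succ_X_mul]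
      simp only [G, A', Matrix.mul_apply, map_sum, Matrix.map_apply, Matrix.of_apply, coeff_C_mul,
        coeff_mk, coeff_succ_C]
      rw [pow_succ' A (k + 1), Matrix.mul_apply, sub_self]
  have hp : (A.charpolyRev : R⟦X⟧) = (1 - (X : R⟦X⟧) • A').det := by
    rw [← Polynomial.coeToPowerSeries.ringHom_apply, Matrix.charpolyRev, RingHom.map_det]
    congr 1
    refine Matrix.ext fun i j => ?_
    by_cases h : i = j
    · simp [A', h]
      ring
    · simp [A', h]
      ring
  let f : Polynomial R →+* Polynomial R⟦X⟧ :=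
    Polynomial.eval₂RingHom (Polynomial.C.comp PowerSeries.C) (Polynomial.X + Polynomial.C X)
  have hf : ∀ p : Polynomial R, (f p).coeff 1 = (Polynomial.derivative p : Polynomial R) := by
    intro p
    have h1 : f p = Polynomial.taylor (X : R⟦X⟧) (p.map PowerSeries.C) := by
      rw [Polynomial.taylor_apply, Polynomial.comp, Polynomial.eval₂_map]
      rfl
    rw [h1, Polynomial.taylor_coeff_one, Polynomial.derivative_map, Polynomial.eval_map,
      Polynomial.eval₂_C_X_eq_coe]
  have h2 : f A.charpolyRev = Polynomial.C (A.charpolyRev : R⟦X⟧) * G.charpolyRev := by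
    rw [hp, Matrix.charpolyRev, Matrix.charpolyRev, RingHom.map_det, RingHom.map_det,
      ← Matrix.det_mul]
    congr 1
    rw [mul_sub, mul_one, Matrix.mul_smul, RingHom.mapMatrix_apply (f := Polynomial.C),
      ← Matrix.map_mul, hG]
    ext i j : 2
    by_cases h : i = j
    · simp [f, A', h]
      ring
    · simp [f, A', h]
      ring
  rw [derivative_coe, ← hf, h2, Polynomial.coeff_C_mul, Matrix.coeff_charpolyRev_eq_neg_trace,
    mul_comm]
  congr 2
  ext k
  simp [G, Matrix.trace]

variable {I J : Type*} {R : Type*} [NormedCommRing R] [IsUltrametricDist R]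

/-- The Fredholm series `det (1 - X M)`. -/
noncomputable def fred (M : I → I → R) : R⟦X⟧ :=
  PowerSeries.mk fun n => (-1) ^ n * ∑' S : Finset I, if S.card = n then minor M S else 0

omit [IsUltrametricDist R] in
theorem minor_smul (x : R) (M : I → I → R) (S : Finset I) :
    minor (fun i j => x * M i j) S = x ^ S.card * minor M S := by
  classical
  unfold minor
  have h := Matrix.det_smul (Matrix.of fun i j : S => M i j) x
  rw [Fintype.card_coe] at h
  exact h

omit [IsUltrametricDist R] in
theorem minor_empty (M : I → I → R) : minor M ∅ = 1 := by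
  classical
  unfold minor
  exact Matrix.det_isEmpty

omit [IsUltrametricDist R] in
theorem coeff_zero_fred (M : I → I → R) : coeff 0 (fred M) = 1 := by
  rw [fred, coeff_mk, pow_zero, one_mul, tsum_eq_single ∅ fun S hS => if_neg (by simpa using hS)]
  simp [minor_empty]

omit [IsUltrametricDist R] in
theorem norm_neg_one_pow_mul (n : ℕ) (x : R) : ‖(-1) ^ n * x‖ = ‖x‖ := by
  rcases neg_one_pow_eq_or R n with h | h <;> simp [h]

variable [NormOneClass R]

theorem Nuc.norm_ite_le {M : I → I → R} {r φ : I → ℝ} (h : Nuc M r φ) (n : ℕ) (S : Finset I) :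
    ‖if S.card = n then minor M S else 0‖ ≤ ∏ i ∈ S, r i := by
  split_ifs
  · exact h.norm_minor_le S
  · rw [norm_zero]
    exact Finset.prod_nonneg fun i _ => h.nonneg i

/-- The Hodge bound. -/
theorem Nuc.norm_coeff_fred_le {M : I → I → R} {r φ : I → ℝ} (h : Nuc M r φ) (n : ℕ) {c : ℝ}
    (hc0 : 0 ≤ c) (hc : ∀ S : Finset I, S.card = n → ∏ i ∈ S, r i ≤ c) :
    ‖coeff n (fred M)‖ ≤ c := by
  rw [fred, coeff_mk, norm_neg_one_pow_mul]
  refine IsUltrametricDist.norm_tsum_le_of_forall_le_of_nonneg hc0 fun S => ?_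
  split_ifs with hS
  · exact (h.norm_minor_le S).trans (hc S hS)
  · simpa using hc0

theorem Nuc.entire_fred {M : I → I → R} {r φ : I → ℝ} (h : Nuc M r φ) : Entire (fred M) := by
  intro ρ hρ
  obtain ⟨c, hc0, hc⟩ := exists_bound_of_tendsto (tendsto_prod_cofinite (r := fun i => r i / ρ)
    (fun i => div_nonneg (h.nonneg i) hρ.le) (by simpa using h.lim.div_const ρ))
  refine ⟨c, fun n => h.norm_coeff_fred_le n (by positivity) fun S hS => ?_⟩
  have h1 := hc S
  rwa [Finset.prod_div_distrib, Finset.prod_const, hS, div_le_iff₀ (by positivity)] at h1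

variable [CompleteSpace R]

theorem Nuc.ev_fred {M : I → I → R} {r φ : I → ℝ} (h : Nuc M r φ) (x : R) :
    ev x (fred M) = fdet fun i j => -x * M i j := by
  have h1 := (h.smul (x := -x) le_rfl).summable_minor.hasSum.tsum_fiberwise Finset.card
  rw [fdet, ← h1.tsum_eq, ev]
  refine tsum_congr fun n => ?_
  have h2 : Summable fun S : Finset I => if S.card = n then minor M S else 0 :=
    summable_of_le (tendsto_prod_cofinite h.nonneg h.lim) (h.norm_ite_le n)
  rw [tsum_subtype, fred, coeff_mk, mul_right_comm, ← h2.tsum_mul_left]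
  refine tsum_congr fun S => ?_
  by_cases hS : S.card = n
  · rw [Set.indicator_of_mem (by simpa using hS), if_pos hS, minor_smul, hS, neg_pow x]
  · rw [Set.indicator_of_notMem (by simpa using hS), if_neg hS, mul_zero]

theorem tendsto_coeff_fred {κ : Type*} {l : Filter κ}
    {N : κ → I → I → R} {M : I → I → R} {r φ : I → ℝ} (h0 : ∀ i, 0 ≤ r i)
    (hr : Tendsto r cofinite (𝓝 0)) (h : ∀ᶠ k in l, Nuc (N k) r φ)
    (hM : ∀ i j, Tendsto (fun k => N k i j) l (𝓝 (M i j))) (n : ℕ) :
    Tendsto (fun k => coeff n (fred (N k))) l (𝓝 (coeff n (fred M))) := by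
  classical
  simp only [fred, coeff_mk]
  refine Tendsto.const_mul _ (tendsto_tsum_of_le (tendsto_prod_cofinite h0 hr)
    (h.mono fun k hk => hk.norm_ite_le n) fun S => ?_)
  split_ifs
  · unfold minor
    refine (continuous_id.matrix_det.tendsto _).comp ?_
    exact tendsto_pi_nhds.mpr fun i => tendsto_pi_nhds.mpr fun j => hM i j
  · exact tendsto_const_nhds

omit [IsUltrametricDist R] [NormOneClass R] [CompleteSpace R] in
theorem fred_embed (M : I → I → R) (e : J ↪ I) (h : ∀ i, i ∉ Set.range e → ∀ j, M i j = 0) :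
    fred M = fred (fun a b => M (e a) (e b)) := by
  classical
  ext n
  simp only [fred, coeff_mk]
  congr 1
  have h1 := (Finset.map_injective e).tsum_eq
    (f := fun S : Finset I => if S.card = n then minor M S else 0) (by
      intro S hS
      refine ⟨S.preimage e e.injective.injOn, ?_⟩
      ext i
      simp only [Finset.mem_map, Finset.mem_preimage]
      constructor
      · rintro ⟨a, ha, rfl⟩
        exact ha
      · intro hi
        by_contra h1
        refine hS ?_
        have h2 : minor M S = 0 := minor_eq_zero hi (h i (by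
          rintro ⟨a, rfl⟩
          exact h1 ⟨a, hi, rfl⟩))
        simp [h2])
  rw [← h1]
  simp only [Finset.card_map, minor_map]

omit [IsUltrametricDist R] [NormOneClass R] [CompleteSpace R] in
theorem fred_fintype {n : Type*} [Fintype n] [DecidableEq n] (A : Matrix n n R) :
    fred A = (A.charpolyRev : R⟦X⟧) := by
  ext k
  have h1 : A.charpolyRev = (1 + (Polynomial.X : Polynomial R) • (-A).map Polynomial.C).det := by
    simp only [Matrix.charpolyRev, sub_eq_add_neg]
    congr 2
    ext i j : 2
    simp
  rw [Polynomial.coeff_coe, h1, Matrix.coeff_det_one_add_X_smul_eq_sum_minors]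
  unfold fred
  rw [coeff_mk, tsum_fintype, ← Finset.sum_filter, Finset.mul_sum]
  refine Finset.sum_congr (by ext s; simp) fun s hs => ?_
  rw [← (Finset.mem_powersetCard.mp hs).2]
  refine (minor_smul (-1) (fun i j => A i j) s).symm.trans ?_
  refine (minor_eq _ s).trans (congrArg Matrix.det ?_)
  ext i j
  simp

omit [IsUltrametricDist R] [NormOneClass R] [CompleteSpace R] in
theorem mpow_cut [DecidableEq I] (F : Finset I) (M : I → I → R) (n : ℕ) :
    (∀ i, i ∉ F → ∀ j, mpow (cut F M) n i j = 0) ∧ ∀ i j : F,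
      mpow (cut F M) n i j = ((Matrix.of fun i j : F => M i j) ^ (n + 1)) i j := by
  induction n with
  | zero => exact ⟨fun i hi j => by simp [mpow, cut, hi], fun i j => by simp [mpow, cut]⟩
  | succ n ih =>
    refine ⟨fun i hi j => by simp [mpow, mmul, ih.1 i hi], fun i j => ?_⟩
    rw [mpow, mmul_cut, pow_succ, Matrix.mul_apply]
    exact Finset.sum_congr rfl fun k _ => by rw [ih.2 i k]; rfl

/-- The trace formula for the Fredholm series. -/
theorem Nuc.derivative_fred {M : I → I → R} {r φ : I → ℝ} (h : Nuc M r φ) :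
    d⁄dX R (fred M) = -(PowerSeries.mk fun k => mtr (DW.mpow M k)) * fred M := by
  classical
  obtain ⟨c, hc0, hc⟩ := exists_bound_of_tendsto h.lim
  have hN : ∀ᶠ F : Finset I in atTop, Nuc (DW.cut F M) r φ := Eventually.of_forall h.cut
  have h1 := tendsto_coeff_fred h.nonneg h.lim hN (tendsto_cut M)
  have h2 : ∀ k, Tendsto (fun F : Finset I => mtr (DW.mpow (DW.cut F M) k)) atTop
      (𝓝 (mtr (DW.mpow M k))) := fun k =>
    tendsto_mtr (by simpa using h.lim.mul_const (c ^ k)) (hN.mono fun F hF => hF.mpow hc0 hc k)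
      (tendsto_mpow h.lim hN (tendsto_cut M) k)
  have h3 : ∀ F : Finset I, d⁄dX R (fred (DW.cut F M)) =
      -(PowerSeries.mk fun k => mtr (DW.mpow (DW.cut F M) k)) * fred (DW.cut F M) := by
    intro F
    have h4 : fred (DW.cut F M) = ((Matrix.of fun i j : F => M i j).charpolyRev : R⟦X⟧) := by
      rw [fred_embed _ (Function.Embedding.subtype (· ∈ F)) (fun i hi j => by
        have : i ∉ F := fun h1 => hi ⟨⟨i, h1⟩, rfl⟩
        simp [DW.cut, this]), ← fred_fintype]
      congr 1
      ext i j
      simp [DW.cut]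
    rw [h4, derivative_charpolyRev]
    congr 3
    ext k
    rw [mtr, tsum_eq_sum (s := F) (fun i hi => (mpow_cut F M k).1 i hi i), ← Finset.sum_coe_sort,
      Matrix.trace]
    exact Finset.sum_congr rfl fun i _ => ((mpow_cut F M k).2 i i).symm
  ext n
  have h5 : ∀ F : Finset I, coeff (n + 1) (fred (DW.cut F M)) * ((n : R) + 1) =
      -∑ p ∈ antidiagonal n, mtr (DW.mpow (DW.cut F M) p.1) * coeff p.2 (fred (DW.cut F M)) := by
    intro F
    have := congrArg (coeff n) (h3 F)
    rw [coeff_derivative, neg_mul, map_neg, coeff_mul] at this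
    simpa only [coeff_mk] using this
  rw [coeff_derivative, neg_mul, map_neg, coeff_mul]
  simp only [coeff_mk]
  refine tendsto_nhds_unique ((h1 (n + 1)).mul_const _) ?_
  simp only [h5]
  exact (tendsto_finsetSum _ fun p _ => (h2 p.1).mul (h1 p.2)).neg

end Pool.Agent.Lib.MP_788af2_nt.DW
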