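import Mathlib

/-! The rationality criterion of Borel and Dwork, by the lemma of Siegel. -/

open PowerSeries Matrix Finset.HasAntidiagonal

namespace Pool.Agent.Lib.MP_788af2_nt.DW

attribute [local instance] Matrix.seminormedAddCommGroup

theorem exists_small_mul (f : ℤ⟦X⟧) {C : ℝ} (hC : 1 ≤ C)
    (hf : ∀ n, |((coeff n f : ℤ) : ℝ)| ≤ C ^ n) {s : ℕ} (hs : 0 < s) :
    ∃ Q : Polynomial ℤ, Q ≠ 0 ∧ (∀ j, 2 * s ≤ j → Q.coeff j = 0) ∧
      (∀ j, |((Q.coeff j : ℤ) : ℝ)| ≤ 2 * s * C ^ (3 * s)) ∧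
      ∀ n, 2 * s ≤ n → n < 3 * s → coeff n (f * (Q : ℤ⟦X⟧)) = 0 := by
  classical
  let M : Matrix (Fin s) (Fin (2 * s)) ℤ := fun i j => coeff (2 * s + i - j) f
  have hC3 : (1 : ℝ) ≤ C ^ (3 * s) := one_le_pow₀ hC
  have hM : ‖M‖ ≤ C ^ (3 * s) := by
    rw [Matrix.norm_le_iff (by positivity)]
    intro i j
    rw [Int.norm_eq_abs]
    refine (hf _).trans (pow_le_pow_right₀ hC ?_)
    have := i.2
    omega
  obtain ⟨t, ht0, htM, ht⟩ := Int.Matrix.exists_ne_zero_int_vec_norm_le M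
    (by simp only [Fintype.card_fin]; omega) (by simpa using hs)
  have hs' : (0 : ℝ) < s := by exact_mod_cast hs
  have he : ((Fintype.card (Fin s) : ℝ) / ((Fintype.card (Fin (2 * s)) : ℝ) -
      Fintype.card (Fin s))) = 1 := by
    simp only [Fintype.card_fin]
    push_cast
    rw [div_eq_one_iff_eq (by linarith)]
    ring
  rw [he, Real.rpow_one] at ht
  have ht' : ‖t‖ ≤ 2 * s * C ^ (3 * s) := by
    refine ht.trans ?_
    simp only [Fintype.card_fin]
    push_cast
    gcongr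
    exact max_le hC3 hM
  let Q : Polynomial ℤ := ∑ j : Fin (2 * s), Polynomial.monomial (j : ℕ) (t j)
  have hQ : ∀ j : Fin (2 * s), Q.coeff j = t j := by
    intro j
    simp only [Q, Polynomial.finsetSum_coeff, Polynomial.coeff_monomial]
    rw [Finset.sum_eq_single j]
    · simp
    · intro b _ hb
      rw [if_neg]
      exact fun h => hb (Fin.ext h)
    · simp
  have hQ0 : ∀ j, 2 * s ≤ j → Q.coeff j = 0 := by
    intro j hj
    simp only [Q, Polynomial.finsetSum_coeff, Polynomial.coeff_monomial]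
    refine Finset.sum_eq_zero fun b _ => ?_
    rw [if_neg]
    have := b.2
    omega
  refine ⟨Q, ?_, hQ0, ?_, ?_⟩
  · intro h
    apply ht0
    funext j
    rw [← hQ j, h]
    simp
  · intro j
    by_cases hj : j < 2 * s
    · have h1 := hQ ⟨j, hj⟩
      simp only at h1
      rw [h1, ← Int.norm_eq_abs]
      exact (norm_le_pi_norm t _).trans ht'
    · rw [hQ0 j (by omega)]
      simp only [Int.cast_zero, abs_zero]
      positivity
  · intro n hn1 hn2
    have h1 := congrFun htM ⟨n - 2 * s, by omega⟩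
    simp only [Matrix.mulVec, dotProduct, M, Pi.zero_apply] at h1
    have h2 : (Q : ℤ⟦X⟧) = ∑ j : Fin (2 * s), PowerSeries.C (t j) * X ^ (j : ℕ) := by
      rw [← Polynomial.coeToPowerSeries.ringHom_apply, map_sum]
      refine Finset.sum_congr rfl fun j _ => ?_
      rw [Polynomial.coeToPowerSeries.ringHom_apply, ← Polynomial.C_mul_X_pow_eq_monomial,
        Polynomial.coe_mul, Polynomial.coe_C, Polynomial.coe_pow, Polynomial.coe_X]
    rw [h2, Finset.mul_sum, map_sum, ← h1]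
    refine Finset.sum_congr rfl fun j _ => ?_
    have hj := j.2
    rw [← mul_assoc, coeff_mul_X_pow', if_pos (by omega), coeff_mul_C]
    congr 3
    omega

/-- An integral series of finite exponential growth which is a quotient of two series that
converge on a large disc for an ultrametric norm is rational. -/
theorem borel_dwork_aux {K : Type*} [NormedCommRing K] [NormOneClass K] [IsUltrametricDist K]
    (hK : ∀ z : ℤ, z ≠ 0 → 1 ≤ |(z : ℝ)| * ‖(z : K)‖)
    (f : ℤ⟦X⟧) {C : ℝ} (hC : 1 ≤ C) (hf : ∀ n, |((coeff n f : ℤ) : ℝ)| ≤ C ^ n)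
    (A B : K⟦X⟧) (hB0 : coeff 0 B = 1) (hAB : map (Int.castRingHom K) f * B = A) {c : ℝ}
    (hA : ∀ n, ‖coeff n A‖ ≤ c * (((8 * C ^ 2) ^ 3)⁻¹) ^ n)
    (hB : ∀ n, ‖coeff n B‖ ≤ c * (((8 * C ^ 2) ^ 3)⁻¹) ^ n) :
    ∃ P Q : Polynomial ℤ, Q ≠ 0 ∧ f * (Q : ℤ⟦X⟧) = P := by
  obtain ⟨s0, hs0⟩ := pow_unbounded_of_one_lt c (one_lt_two (α := ℝ))
  set s := s0 + 1 with hsdef
  have hs : 0 < s := by omega
  obtain ⟨Q, hQ0, hQ1, hQ2, hQ3⟩ := exists_small_mul f hC hf hs
  set ρ : ℝ := ((8 * C ^ 2) ^ 3)⁻¹ with hρ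
  have hE : (1 : ℝ) ≤ 8 * C ^ 2 := by nlinarith
  have hρ0 : 0 ≤ ρ := by positivity
  have hρ1 : ρ ≤ 1 := inv_le_one_of_one_le₀ (one_le_pow₀ hE)
  have hc : 0 ≤ c := by
    have := (norm_nonneg _).trans (hA 0)
    simpa using this
  set g : ℤ⟦X⟧ := f * (Q : ℤ⟦X⟧) with hg
  have key : ∀ N, 2 * s ≤ N → coeff N g = 0 := by
    intro N
    induction N using Nat.strong_induction_on with
    | _ N ih =>
      intro hN
      by_cases hN3 : N < 3 * s
      · exact hQ3 N hN hN3
      by_contra hne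
      have h1 := hK _ hne
      have h2 : |((coeff N g : ℤ) : ℝ)| ≤ (4 * C ^ 2) ^ N := by
        have h3 : ∀ p ∈ antidiagonal N, |((coeff p.1 f * coeff p.2 (Q : ℤ⟦X⟧) : ℤ) : ℝ)| ≤
            C ^ N * (2 * s * C ^ (3 * s)) := by
          intro p hp
          rw [Int.cast_mul, abs_mul, Polynomial.coeff_coe]
          have hp' := mem_antidiagonal.mp hp
          exact mul_le_mul ((hf _).trans (pow_le_pow_right₀ hC (by omega))) (hQ2 _)
            (abs_nonneg _) (by positivity)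
        have h4 : (N + 1 : ℝ) ≤ 2 ^ N := by exact_mod_cast Nat.lt_two_pow_self
        have h5 : (2 * s : ℝ) ≤ 2 ^ N := by
          have : (2 * s : ℝ) ≤ N := by exact_mod_cast hN
          linarith
        have h6 : C ^ (3 * s) ≤ C ^ N := pow_le_pow_right₀ hC (by omega)
        rw [hg, coeff_mul, Int.cast_sum]
        refine (Finset.abs_sum_le_sum_abs _ _).trans
          ((Finset.sum_le_card_nsmul _ _ _ h3).trans ?_)
        rw [Finset.Nat.card_antidiagonal, nsmul_eq_mul]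
        push_cast
        calc (N + 1 : ℝ) * (C ^ N * (2 * s * C ^ (3 * s)))
            ≤ 2 ^ N * (C ^ N * (2 ^ N * C ^ N)) := by gcongr
          _ = (4 * C ^ 2) ^ N := by
            rw [show (4 * C ^ 2 : ℝ) = 2 * (C * (2 * C)) by ring]
            simp only [mul_pow]
      have h7 : map (Int.castRingHom K) g * B = A * map (Int.castRingHom K) (Q : ℤ⟦X⟧) := by
        rw [← hAB, hg, map_mul]
        ring
      have h8 : ‖coeff N (A * map (Int.castRingHom K) (Q : ℤ⟦X⟧))‖ ≤ c * ρ ^ (N - 2 * s) := by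
        rw [coeff_mul]
        refine IsUltrametricDist.norm_sum_le_of_forall_le_of_nonneg (by positivity) ?_
        intro p hp
        have hp' := mem_antidiagonal.mp hp
        rw [coeff_map, Polynomial.coeff_coe]
        by_cases h : 2 * s ≤ p.2
        · rw [hQ1 _ h]
          simp only [map_zero, mul_zero, norm_zero]
          positivity
        · refine (norm_mul_le _ _).trans ?_
          have h9 := IsUltrametricDist.norm_intCast_le_one K (Q.coeff p.2)
          have h10 : ρ ^ p.1 ≤ ρ ^ (N - 2 * s) := pow_le_pow_of_le_one hρ0 hρ1 (by omega)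
          calc ‖coeff p.1 A‖ * ‖(Int.castRingHom K) (Q.coeff p.2)‖ ≤ (c * ρ ^ p.1) * 1 :=
                mul_le_mul (hA _) h9 (norm_nonneg _) (by positivity)
            _ ≤ c * ρ ^ (N - 2 * s) := by rw [mul_one]; gcongr
      have h11 : ‖∑ p ∈ (antidiagonal N).erase (N, 0),
          coeff p.1 (map (Int.castRingHom K) g) * coeff p.2 B‖ ≤ c * ρ ^ (N - 2 * s) := by
        refine IsUltrametricDist.norm_sum_le_of_forall_le_of_nonneg (by positivity) ?_
        intro p hp
        obtain ⟨hp1, hp2⟩ := Finset.mem_erase.mp hp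
        have hp' := mem_antidiagonal.mp hp2
        have hlt : p.1 < N := by
          by_contra hh
          exact hp1 (Prod.ext (by simp only; omega) (by simp only; omega))
        rw [coeff_map]
        by_cases h : 2 * s ≤ p.1
        · rw [ih _ hlt h]
          simp only [map_zero, zero_mul, norm_zero]
          positivity
        · refine (norm_mul_le _ _).trans ?_
          have h9 := IsUltrametricDist.norm_intCast_le_one K (coeff p.1 g)
          have h10 : ρ ^ p.2 ≤ ρ ^ (N - 2 * s) := pow_le_pow_of_le_one hρ0 hρ1 (by omega)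
          calc ‖(Int.castRingHom K) (coeff p.1 g)‖ * ‖coeff p.2 B‖ ≤ 1 * (c * ρ ^ p.2) :=
                mul_le_mul h9 (hB _) (norm_nonneg _) (by positivity)
            _ ≤ c * ρ ^ (N - 2 * s) := by rw [one_mul]; gcongr
      have h12 : ‖((coeff N g : ℤ) : K)‖ ≤ c * ρ ^ (N - 2 * s) := by
        have h13 := congrArg (coeff N) h7
        rw [coeff_mul, ← Finset.add_sum_erase _ _
          (show (N, 0) ∈ antidiagonal N by simp)] at h13
        simp only [hB0, mul_one, coeff_map, eq_intCast] at h13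
        simp only [coeff_map, eq_intCast] at h11
        rw [eq_sub_of_add_eq h13, sub_eq_add_neg]
        refine (IsUltrametricDist.norm_add_le_max _ _).trans (max_le h8 ?_)
        rwa [norm_neg]
      have h14 : ρ ^ (N - 2 * s) ≤ ((8 * C ^ 2) ^ N)⁻¹ := by
        rw [hρ, inv_pow, ← pow_mul]
        exact inv_anti₀ (by positivity) (pow_le_pow_right₀ hE (by omega))
      have h15 : c < 2 ^ N := hs0.trans_le (pow_le_pow_right₀ one_le_two (by omega))
      have h16 : (4 * C ^ 2) ^ N * (c * ((8 * C ^ 2) ^ N)⁻¹) < 1 := by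
        rw [show (8 * C ^ 2 : ℝ) = 2 * (4 * C ^ 2) by ring, mul_pow 2]
        have h17 : (0 : ℝ) < (4 * C ^ 2) ^ N := by positivity
        have h18 : (0 : ℝ) < 2 ^ N := by positivity
        rw [show (4 * C ^ 2) ^ N * (c * (2 ^ N * (4 * C ^ 2) ^ N)⁻¹) = c / 2 ^ N by field_simp]
        exact (div_lt_one h18).mpr h15
      have h19 : |((coeff N g : ℤ) : ℝ)| * ‖((coeff N g : ℤ) : K)‖ ≤
          (4 * C ^ 2) ^ N * (c * ((8 * C ^ 2) ^ N)⁻¹) :=
        mul_le_mul h2 (h12.trans (by gcongr)) (norm_nonneg _) (by positivity)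
      linarith
  refine ⟨trunc (2 * s) g, Q, hQ0, ?_⟩
  ext n
  rw [Polynomial.coeff_coe, coeff_trunc]
  split_ifs with h
  · rfl
  · exact key n (by omega)

/-- The criterion of Borel and Dwork for a quotient of two entire series. -/
theorem borel_dwork {K : Type*} [NormedCommRing K] [NormOneClass K] [IsUltrametricDist K]
    (hK : ∀ z : ℤ, z ≠ 0 → 1 ≤ |(z : ℝ)| * ‖(z : K)‖)
    (f : ℤ⟦X⟧) {C : ℝ} (hC : 1 ≤ C) (hf : ∀ n, |((coeff n f : ℤ) : ℝ)| ≤ C ^ n)
    (A B : K⟦X⟧) (hB0 : coeff 0 B = 1) (hAB : map (Int.castRingHom K) f * B = A)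
    (hA : ∀ ρ : ℝ, 0 < ρ → ∃ c, ∀ n, ‖coeff n A‖ ≤ c * ρ ^ n)
    (hB : ∀ ρ : ℝ, 0 < ρ → ∃ c, ∀ n, ‖coeff n B‖ ≤ c * ρ ^ n) :
    ∃ P Q : Polynomial ℤ, Q ≠ 0 ∧ f * (Q : ℤ⟦X⟧) = P := by
  have hρ : (0 : ℝ) < ((8 * C ^ 2) ^ 3)⁻¹ := by positivity
  obtain ⟨c1, h1⟩ := hA _ hρ
  obtain ⟨c2, h2⟩ := hB _ hρ
  refine borel_dwork_aux hK f hC hf A B hB0 hAB (c := max c1 c2) (fun n => (h1 n).trans ?_)
    (fun n => (h2 n).trans ?_)
  · gcongr
    exact le_max_left _ _
  · gcongr
    exact le_max_right _ _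

end Pool.Agent.Lib.MP_788af2_nt.DW
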