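import Pool.Agent.Lib.MP_788af2_nt.DW.Trace

/-! The trace formula of Dwork on the affine line times the multiplicative group. -/

open Filter Topology

namespace Pool.Agent.Lib.MP_788af2_nt.DW

variable {Z : Type*} {R : Type*} [NormedCommRing R] {K : Type*} [Field K]

/-- The half plane of exponents. -/
def cone : AddSubmonoid (ℤ × ℤ) where
  carrier := {u | 0 ≤ u.1}
  add_mem' := fun {a b} (ha : 0 ≤ a.1) (hb : 0 ≤ b.1) => add_nonneg ha hb
  zero_mem' := le_refl (0 : ℤ)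

theorem mem_cone {u : ℤ × ℤ} : u ∈ cone ↔ 0 ≤ u.1 := Iff.rfl

theorem nsmul_fst (q : ℕ) (u : ℤ × ℤ) : (q • u).1 = q * u.1 := by rw [Prod.smul_fst, nsmul_eq_mul]

theorem nsmul_snd (q : ℕ) (u : ℤ × ℤ) : (q • u).2 = q * u.2 := by rw [Prod.smul_snd, nsmul_eq_mul]

/-- Exponents of the monomials divisible by `t`. -/
def Sp : Set (ℤ × ℤ) := {u | 1 ≤ u.1}

/-- Exponents of the monomials free of `t`. -/
def Sz : Set (ℤ × ℤ) := {u | u.1 = 0}

/-- The lift of the point `(t, x)`. -/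
noncomputable def pt (τ : K →*₀ R) (t : K) (x : Kˣ) : ℤ × ℤ → R :=
  fun u => τ (t ^ u.1.toNat * (x ^ u.2 : Kˣ))

theorem pt_pt {τ : K →*₀ R} (hτ : ∀ x, ‖τ x‖ ≤ 1) (t : K) (x : Kˣ) : Pt cone (pt τ t x) := by
  refine ⟨fun u => hτ _, fun u hu v hv => ?_⟩
  simp only [pt, Prod.fst_add, Prod.snd_add, ← map_mul, Int.toNat_add (mem_cone.mp hu) (mem_cone.mp hv), pow_add, zpow_add,
    Units.val_mul]
  congr 1
  ring

theorem pt_nsmul (τ : K →*₀ R) (t : K) (x : Kˣ) (q : ℕ) :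
    (fun u => pt τ t x (q • u)) = pt τ (t ^ q) (x ^ q) := by
  funext u
  have h : (q • u).1.toNat = q * u.1.toNat := by
    rw [Prod.smul_fst, nsmul_eq_mul]
    rcases le_total 0 u.1 with h | h
    · rw [Int.toNat_mul (by positivity) h, Int.toNat_natCast]
    · rw [Int.toNat_eq_zero.mpr h, Int.toNat_eq_zero.mpr (mul_nonpos_of_nonneg_of_nonpos
        (by positivity) h), mul_zero]
  simp only [pt, h, pow_mul, nsmul_snd, zpow_mul, zpow_natCast]

theorem Sp_closed {q : ℕ} : ∀ u ∈ Sp, ∀ v ∈ Sp, ∀ (w : ℤ × ℤ) (m : ℕ),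
    m • u - w ∈ cone → q • w - v ∈ cone → w ∈ Sp := by
  intro u _ v hv w m _ h
  simp only [Sp, Set.mem_ofPred_eq, mem_cone, Prod.fst_sub, nsmul_fst] at *
  by_contra h1
  have h2 : w.1 ≤ 0 := by omega
  have : (q : ℤ) * w.1 ≤ 0 := mul_nonpos_of_nonneg_of_nonpos (by positivity) h2
  omega

theorem Sz_closed {q : ℕ} (hq : 0 < q) : ∀ u ∈ Sz, ∀ v ∈ Sz, ∀ (w : ℤ × ℤ) (m : ℕ),
    m • u - w ∈ cone → q • w - v ∈ cone → w ∈ Sz := by
  intro u hu v hv w m h0 h
  simp only [Sz, Set.mem_ofPred_eq, mem_cone, Prod.fst_sub, nsmul_fst] at *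
  rw [hu] at h0
  rw [hv] at h
  have hq' : (0 : ℤ) < q := by exact_mod_cast hq
  have h1 : 0 ≤ w.1 := by
    by_contra h2
    nlinarith
  omega

theorem sum_units_zpow [Fintype K] [DecidableEq K] [IsDomain R] {τ : K →*₀ R}
    (hτ : Function.Injective τ) {N : ℕ} (hN : Fintype.card K = N + 1) (m : ℤ) :
    ∑ x : Kˣ, τ (x ^ m : Kˣ) = if (N : ℤ) ∣ m then (N : R) else 0 := by
  classical
  let f : Kˣ →* R := (τ.toMonoidHom.comp (Units.coeHom K)).comp (zpowGroupHom m)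
  have h1 := sum_hom_units f
  have h2 : Fintype.card Kˣ = N := by rw [Fintype.card_units, hN]; rfl
  have h3 : f = 1 ↔ (N : ℤ) ∣ m := by
    obtain ⟨g, hg⟩ := IsCyclic.exists_generator (α := Kˣ)
    have h4 : orderOf g = N := by
      rw [orderOf_eq_card_of_forall_mem_zpowers hg, Nat.card_eq_fintype_card, h2]
    constructor
    · intro h
      have h5 : τ (g ^ m : Kˣ) = τ 1 := by
        rw [map_one]
        exact DFunLike.congr_fun h g
      rw [← h4, orderOf_dvd_iff_zpow_eq_one]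
      exact Units.ext (hτ h5)
    · rintro ⟨c, rfl⟩
      ext x
      change τ (x ^ ((N : ℤ) * c) : Kˣ) = 1
      rw [zpow_mul, zpow_natCast, ← h2, pow_card_eq_one, one_zpow, Units.val_one, map_one]
  refine Eq.trans h1 ?_
  rw [h2]
  by_cases h : f = 1
  · rw [if_pos h, if_pos (h3.mp h)]
  · rw [if_neg h, if_neg (mt h3.mpr h), Nat.cast_zero]

theorem sum_pt [Fintype K] [DecidableEq K] [IsDomain R] {τ : K →*₀ R}
    (hτ : Function.Injective τ) {N : ℕ} (hN : Fintype.card K = N + 1) {z : ℤ × ℤ}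
    (hz : 0 ≤ z.1) : ∑ p : K × Kˣ, pt τ p.1 p.2 z =
      (if z.1 = 0 then (N : R) + 1 else if (N : ℤ) ∣ z.1 then (N : R) else 0) *
        if (N : ℤ) ∣ z.2 then (N : R) else 0 := by
  simp only [pt, map_mul]
  rw [Fintype.sum_prod_type]
  simp only []
  rw [← Finset.sum_mul_sum, sum_units_zpow hτ hN]
  congr 1
  split_ifs with h1 h2
  · simp [h1, hN]
  all_goals
    have h3 : z.1.toNat ≠ 0 := by omega
    have h4 := sum_units_zpow hτ hN z.1
    rw [← Finset.add_sum_erase _ _ (Finset.mem_univ (0 : K)), zero_pow h3, map_zero, zero_add]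
    simp only [h2, if_true, if_false] at h4
    rw [← h4]
    refine (Finset.sum_bij (fun (x : Kˣ) _ => (x : K)) (fun x _ => by simp)
      (fun x _ y _ h => Units.ext h) (fun b hb => ⟨Units.mk0 b (by simpa using hb), by simp, rfl⟩)
      fun x _ => ?_).symm
    rw [← Units.val_pow_eq_pow_val, ← zpow_natCast, Int.toNat_of_nonneg hz]

theorem smul_sub_eq (N : ℕ) (u : ℤ × ℤ) : (N + 1) • u - u = ((N : ℤ) * u.1, (N : ℤ) * u.2) := by
  rw [succ_nsmul, add_sub_cancel_right]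
  ext <;> simp

theorem smul_sub_injective {N : ℕ} (hN : 0 < N) :
    Function.Injective fun u : ℤ × ℤ => (N + 1) • u - u := by
  intro u v h
  simp only [smul_sub_eq, Prod.mk.injEq] at h
  have h0 : (N : ℤ) ≠ 0 := by omega
  exact Prod.ext (mul_left_cancel₀ h0 h.1) (mul_left_cancel₀ h0 h.2)

variable [IsUltrametricDist R] [CompleteSpace R] [IsDomain R] [Fintype K] [DecidableEq K]

theorem point_sum {τ : K →*₀ R} (hτ : Function.Injective τ) (hτ1 : ∀ x, ‖τ x‖ ≤ 1) {N : ℕ}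
    (hN : Fintype.card K = N + 1) {F : ℤ × ℤ → R} (hF : Summable F) (hF' : Supp cone F) :
    ∑ p : K × Kˣ, evp (pt τ p.1 p.2) F = (N : R) ^ 2 * ∑' u : Sp, F ((N + 1) • (u : ℤ × ℤ) - u) +
      (N + 1) * N * ∑' u : Sz, F ((N + 1) • (u : ℤ × ℤ) - u) := by
  have hN0 : 0 < N := by
    have := Fintype.one_lt_card (α := K)
    omega
  have hN1 : (0 : ℤ) < N := by exact_mod_cast hN0
  refine sum_evp (χ := fun p : K × Kˣ => pt τ p.1 p.2) hF hF' (fun p u => hτ1 _)
    (smul_sub_injective hN0) ?_ ?_ ?_ ?_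
  · rw [Set.disjoint_left]
    intro u h1 h2
    simp only [Sp, Sz, Set.mem_ofPred_eq] at h1 h2
    omega
  · intro u hu
    have hu' : 1 ≤ u.1 := hu
    have h1 : 0 < (N : ℤ) * u.1 := by positivity
    rw [smul_sub_eq, sum_pt hτ hN h1.le, if_neg h1.ne', if_pos (dvd_mul_right _ _),
      if_pos (dvd_mul_right _ _), sq]
  · intro u hu
    have hu' : u.1 = 0 := hu
    have h1 : (N : ℤ) * u.1 = 0 := by rw [hu', mul_zero]
    rw [smul_sub_eq, sum_pt hτ hN h1.ge, if_pos h1, if_pos (dvd_mul_right _ _)]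
  · intro z hz hz'
    have hz0 : 0 ≤ z.1 := hz
    rw [sum_pt hτ hN hz0]
    by_cases h2 : (N : ℤ) ∣ z.2
    · have h1 : ¬ (N : ℤ) ∣ z.1 := by
        rintro ⟨a, ha⟩
        obtain ⟨b, hb⟩ := h2
        refine hz' ⟨(a, b), ?_, (smul_sub_eq N _).trans (Prod.ext ha.symm hb.symm)⟩
        have h3 : 0 ≤ a := by
          by_contra h4
          nlinarith
        simp only [Sp, Sz, Set.mem_union, Set.mem_ofPred_eq]
        omega
      rw [if_neg (fun h : z.1 = 0 => h1 (by rw [h]; exact dvd_zero _)), if_neg h1, zero_mul]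
    · rw [if_neg h2, mul_zero]

open Classical in
/-- The trace formula: `K` has `q ^ (n + 1) = N + 1` elements. -/
theorem trace_formula [Fintype Z] {τ : K →*₀ R} (hτ : Function.Injective τ)
    (hτ1 : ∀ x, ‖τ x‖ ≤ 1) {N q n : ℕ} (hN : Fintype.card K = N + 1) (hq : q ^ (n + 1) = N + 1)
    {F : Z → ℤ × ℤ → R} (hF : ∀ i, Summable (F i)) (hF' : ∀ i, Supp cone (F i)) (σ : Z → Z) :
    (N : R) ^ 2 * mtr (mpow (op Sp q σ F) n) + (N + 1) * N * mtr (mpow (op Sz q σ F) n) =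
      ∑ i : Z, if i = σ^[n + 1] i then ∑ p : K × Kˣ, ∏ k ∈ Finset.range (n + 1),
        evp (pt τ (p.1 ^ q ^ (n - k)) (p.2 ^ q ^ (n - k))) (F (σ^[k] i)) else 0 := by
  have hN0 : 0 < N := by
    have := Fintype.one_lt_card (α := K)
    omega
  have hq0 : 0 < q := by
    rcases Nat.eq_zero_or_pos q with rfl | h
    · simp at hq
    · exact h
  have hinj : Function.Injective fun u : ℤ × ℤ => q ^ (n + 1) • u - u := by
    rw [hq]
    exact smul_sub_injective hN0
  rw [mtr_mpow_op hF hF' Sp_closed σ n hinj, mtr_mpow_op hF hF' (Sz_closed hq0) σ n hinj,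
    Finset.mul_sum, Finset.mul_sum, ← Finset.sum_add_distrib]
  refine Finset.sum_congr rfl fun i _ => ?_
  split_ifs
  · rw [hq, ← point_sum hτ hτ1 hN (summable_iter hF q σ i n) (supp_iter hF' q σ i n)]
    refine Finset.sum_congr rfl fun p _ => ?_
    rw [evp_iter hF hF' q σ i n (pt_pt hτ1 _ _)]
    simp only [pt_nsmul]
  · simp

end Pool.Agent.Lib.MP_788af2_nt.DW
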