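import Mathlib

/-! Determinants `det (1 + M)` of infinite matrices with decaying rows over a complete
ultrametric ring. -/

open Filter Topology Matrix

namespace Pool.Agent.Lib.MP_788af2_nt.DW

variable {I J : Type*} {R : Type*} [NormedCommRing R] [IsUltrametricDist R]

theorem summable_of_le [CompleteSpace R] {ι : Type*} {f : ι → R} {b : ι → ℝ}
    (hb : Tendsto b cofinite (𝓝 0)) (h : ∀ i, ‖f i‖ ≤ b i) : Summable f :=
  NonarchimedeanAddGroup.summable_of_tendsto_cofinite_zero (squeeze_zero_norm h hb)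

theorem norm_sub_le_max (x y : R) : ‖x - y‖ ≤ max ‖x‖ ‖y‖ := by
  rw [sub_eq_add_neg, ← norm_neg y]
  exact IsUltrametricDist.norm_add_le_max _ _

/-- Dominated convergence for ultrametric sums. -/
theorem tendsto_tsum_of_le [CompleteSpace R] {ι κ : Type*} {l : Filter κ} {f : κ → ι → R}
    {g : ι → R} {b : ι → ℝ} (hb : Tendsto b cofinite (𝓝 0))
    (h : ∀ᶠ k in l, ∀ i, ‖f k i‖ ≤ b i) (hg : ∀ i, Tendsto (fun k => f k i) l (𝓝 (g i))) :
    Tendsto (fun k => ∑' i, f k i) l (𝓝 (∑' i, g i)) := by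
  rcases l.eq_or_neBot with rfl | hl
  · exact tendsto_bot
  have hgb : ∀ i, ‖g i‖ ≤ b i := fun i => le_of_tendsto (hg i).norm (h.mono fun k hk => hk i)
  rw [Metric.tendsto_nhds]
  intro ε hε
  have hT : {i | ¬ b i < ε / 2}.Finite :=
    Filter.eventually_cofinite.mp (hb.eventually (gt_mem_nhds (by linarith)))
  have h1 : ∀ᶠ k in l, ∀ i ∈ {i | ¬ b i < ε / 2}, dist (f k i) (g i) < ε / 2 :=
    (Filter.eventually_all_finite hT).mpr fun i _ =>
      Metric.tendsto_nhds.mp (hg i) _ (by linarith)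
  filter_upwards [h, h1] with k hk hk1
  rw [dist_eq_norm, ← (summable_of_le hb hk).tsum_sub (summable_of_le hb hgb)]
  refine (IsUltrametricDist.norm_tsum_le_of_forall_le_of_nonneg (C := ε / 2) (by linarith)
    fun i => ?_).trans_lt (by linarith)
  by_cases hi : b i < ε / 2
  · exact (norm_sub_le_max _ _).trans (max_le ((hk i).trans hi.le) ((hgb i).trans hi.le))
  · rw [← dist_eq_norm]
    exact (hk1 i hi).le

/-- The rows of `M` decay like `r`, up to the potential `φ`. -/
structure Nuc (M : I → I → R) (r φ : I → ℝ) : Prop where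
  pos : ∀ i, 0 < φ i
  lim : Tendsto r cofinite (𝓝 0)
  le : ∀ i j, ‖M i j‖ * φ j ≤ r i * φ i

omit [IsUltrametricDist R] in
theorem Nuc.nonneg {M : I → I → R} {r φ : I → ℝ} (h : Nuc M r φ) (i : I) : 0 ≤ r i := by
  have h1 := h.le i i
  have h2 := h.pos i
  have h3 := norm_nonneg (M i i)
  by_contra h4
  nlinarith

omit [IsUltrametricDist R] in
theorem Nuc.le_div {M : I → I → R} {r φ : I → ℝ} (h : Nuc M r φ) (i j : I) :
    ‖M i j‖ ≤ r i * φ i / φ j :=
  (le_div_iff₀ (h.pos j)).mpr (h.le i j)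

theorem exists_bound_of_tendsto {r : I → ℝ} (h : Tendsto r cofinite (𝓝 0)) :
    ∃ c : ℝ, 0 ≤ c ∧ ∀ i, r i ≤ c := by
  obtain ⟨c, hc⟩ := h.bddAbove_range_of_cofinite
  exact ⟨max c 0, le_max_right _ _, fun i => (hc ⟨i, rfl⟩).trans (le_max_left _ _)⟩

theorem tendsto_prod_cofinite {r : I → ℝ} (h0 : ∀ i, 0 ≤ r i) (h : Tendsto r cofinite (𝓝 0)) :
    Tendsto (fun S : Finset I => ∏ i ∈ S, r i) cofinite (𝓝 0) := by
  classical
  have hfin : ∀ ε : ℝ, 0 < ε → {i | ¬ r i < ε}.Finite := fun ε hε =>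
    Filter.eventually_cofinite.mp (h.eventually (gt_mem_nhds hε))
  set T := (hfin 1 one_pos).toFinset with hT
  set c : ℝ := ∏ i ∈ T, r i with hc
  have hT1 : ∀ i, i ∈ T ↔ 1 ≤ r i := fun i => by simp [hT]
  have hc1 : 1 ≤ c := Finset.one_le_prod fun i hi => (hT1 i).mp hi
  have hS : ∀ S : Finset I, ∏ i ∈ S, r i ≤ c := by
    intro S
    rw [← Finset.prod_filter_mul_prod_filter_not S (· ∈ T)]
    have h1 : ∏ i ∈ S.filter (· ∈ T), r i ≤ c :=
      Finset.prod_le_prod_of_subset_of_one_le (fun i hi => (Finset.mem_filter.mp hi).2)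
        (fun i _ => h0 i) fun i hi _ => (hT1 i).mp hi
    have h2 : ∏ i ∈ S.filter (fun i => ¬ i ∈ T), r i ≤ 1 :=
      Finset.prod_le_one (fun i _ => h0 i) fun i hi =>
        (not_le.mp fun h3 => (Finset.mem_filter.mp hi).2 ((hT1 i).mpr h3)).le
    calc _ ≤ c * 1 := mul_le_mul h1 h2 (Finset.prod_nonneg fun i _ => h0 i) (by linarith)
      _ = c := mul_one c
  rw [Metric.tendsto_nhds]
  intro ε hε
  rw [Filter.eventually_cofinite]
  refine ((hfin (ε / c) (by positivity)).toFinset.powerset.finite_toSet).subset fun S hS' => ?_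
  simp only [Finset.coe_powerset, Set.mem_preimage, Set.mem_powerset_iff, Set.Finite.coe_toFinset]
  intro i hi h1
  apply hS'
  rw [Real.dist_eq, sub_zero, abs_of_nonneg (Finset.prod_nonneg fun i _ => h0 i),
    ← Finset.mul_prod_erase S r hi]
  calc r i * ∏ j ∈ S.erase i, r j ≤ r i * c := mul_le_mul_of_nonneg_left (hS _) (h0 i)
    _ < ε := (lt_div_iff₀ (by positivity)).mp h1

open Classical in
/-- The principal minor of `M` on `S`. -/
noncomputable def minor (M : I → I → R) (S : Finset I) : R :=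
  (Matrix.of fun i j : S => M i j).det

omit [IsUltrametricDist R] in
theorem minor_eq [d : DecidableEq I] (M : I → I → R) (S : Finset I) :
    minor M S = (Matrix.of fun i j : S => M i j).det := by
  obtain rfl : d = fun a b => Classical.propDecidable (a = b) := Subsingleton.elim _ _
  rfl

/-- `det (1 + M)`. -/
noncomputable def fdet (M : I → I → R) : R := ∑' S : Finset I, minor M S

theorem norm_det_le [NormOneClass R] {n : Type*} [Fintype n] [DecidableEq n] (A : Matrix n n R)
    {r φ : n → ℝ} (hφ : ∀ i, 0 < φ i) (hr : ∀ i, 0 ≤ r i)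
    (h : ∀ i j, ‖A i j‖ * φ j ≤ r i * φ i) : ‖A.det‖ ≤ ∏ i, r i := by
  rw [Matrix.det_apply]
  refine IsUltrametricDist.norm_sum_le_of_forall_le_of_nonneg
    (Finset.prod_nonneg fun i _ => hr i) fun σ _ => ?_
  have h1 : ‖Equiv.Perm.sign σ • ∏ i, A (σ i) i‖ = ‖∏ i, A (σ i) i‖ := by
    rcases Int.units_eq_one_or (Equiv.Perm.sign σ) with h | h <;> simp [h]
  rw [h1]
  refine (Finset.norm_prod_le _ _).trans ?_
  have h2 : (∏ i, ‖A (σ i) i‖) * ∏ i, φ i ≤ (∏ i, r i) * ∏ i, φ i := by
    rw [← Finset.prod_mul_distrib, ← Finset.prod_mul_distrib,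
      ← Equiv.prod_comp σ fun i => r i * φ i]
    exact Finset.prod_le_prod (fun i _ => mul_nonneg (norm_nonneg _) (hφ i).le) fun i _ => h _ _
  exact le_of_mul_le_mul_right h2 (Finset.prod_pos fun i _ => hφ i)

theorem Nuc.norm_minor_le [NormOneClass R] {M : I → I → R} {r φ : I → ℝ} (h : Nuc M r φ)
    (S : Finset I) : ‖minor M S‖ ≤ ∏ i ∈ S, r i := by
  classical
  rw [← Finset.prod_coe_sort S r]
  unfold minor
  convert norm_det_le (Matrix.of fun i j : S => M i j) (r := fun i => r i) (φ := fun i => φ i)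
    (fun i => h.pos i) (fun i => h.nonneg i) fun i j => h.le i j

theorem Nuc.summable_minor [NormOneClass R] [CompleteSpace R] {M : I → I → R} {r φ : I → ℝ}
    (h : Nuc M r φ) : Summable (minor M) :=
  summable_of_le (tendsto_prod_cofinite h.nonneg h.lim) h.norm_minor_le

/-- Dominated convergence for `fdet`. -/
theorem tendsto_fdet [NormOneClass R] [CompleteSpace R] {κ : Type*} {l : Filter κ}
    {N : κ → I → I → R} {M : I → I → R} {r φ : I → ℝ} (h0 : ∀ i, 0 ≤ r i)
    (hr : Tendsto r cofinite (𝓝 0)) (h : ∀ᶠ k in l, Nuc (N k) r φ)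
    (hM : ∀ i j, Tendsto (fun k => N k i j) l (𝓝 (M i j))) :
    Tendsto (fun k => fdet (N k)) l (𝓝 (fdet M)) := by
  classical
  refine tendsto_tsum_of_le (tendsto_prod_cofinite h0 hr) (h.mono fun k hk => hk.norm_minor_le)
    fun S => ?_
  unfold minor
  refine (continuous_id.matrix_det.tendsto _).comp ?_
  exact tendsto_pi_nhds.mpr fun i => tendsto_pi_nhds.mpr fun j => hM i j

omit [IsUltrametricDist R] in
theorem minor_map (M : I → I → R) (e : J ↪ I) (s : Finset J) :
    minor M (s.map e) = minor (fun a b => M (e a) (e b)) s := by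
  classical
  let f : s → s.map e := fun a => ⟨e a, Finset.mem_map_of_mem e a.2⟩
  have hf : Function.Bijective f := by
    constructor
    · intro a b hab
      exact Subtype.ext (e.injective (congrArg Subtype.val hab))
    · rintro ⟨i, hi⟩
      obtain ⟨a, ha, rfl⟩ := Finset.mem_map.mp hi
      exact ⟨⟨a, ha⟩, rfl⟩
  unfold minor
  convert (Matrix.det_submatrix_equiv_self (Equiv.ofBijective f hf)
    (Matrix.of fun i j : s.map e => M i j)).symm
  rfl

omit [IsUltrametricDist R] in
theorem minor_eq_zero {M : I → I → R} {S : Finset I} {i : I} (hi : i ∈ S)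
    (h : ∀ j, M i j = 0) : minor M S = 0 := by
  classical
  unfold minor
  convert Matrix.det_eq_zero_of_row_eq_zero (A := Matrix.of fun i j : S => M i j) ⟨i, hi⟩
    fun j => h j

omit [IsUltrametricDist R] in
theorem minor_transpose (M : I → I → R) (S : Finset I) :
    minor (fun i j => M j i) S = minor M S := by
  classical
  unfold minor
  exact Matrix.det_transpose (Matrix.of fun i j : S => M i j)

omit [IsUltrametricDist R] in
theorem fdet_transpose (M : I → I → R) : fdet (fun i j => M j i) = fdet M := by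
  unfold fdet
  simp only [minor_transpose]

omit [IsUltrametricDist R] in
/-- Zero rows can be deleted. -/
theorem fdet_embed (M : I → I → R) (e : J ↪ I) (h : ∀ i, i ∉ Set.range e → ∀ j, M i j = 0) :
    fdet M = fdet (fun a b => M (e a) (e b)) := by
  classical
  unfold fdet
  simp only [← minor_map]
  refine ((Finset.map_injective e).tsum_eq ?_).symm
  intro S hS
  refine ⟨S.preimage e e.injective.injOn, ?_⟩
  ext i
  simp only [Finset.mem_map, Finset.mem_preimage]
  constructor
  · rintro ⟨a, ha, rfl⟩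
    exact ha
  · intro hi
    by_contra h1
    refine hS (minor_eq_zero hi (h i ?_))
    rintro ⟨a, rfl⟩
    exact h1 ⟨a, hi, rfl⟩

omit [IsUltrametricDist R] in
theorem fdet_fintype {n : Type*} [Fintype n] [DecidableEq n] (A : Matrix n n R) :
    fdet A = (1 + A).det := by
  unfold fdet
  rw [tsum_fintype, add_comm]
  have h := (detRowAlternating : (n → R) [⋀^n]→ₗ[R] R).toMultilinearMap.map_add_univ
    A.row (1 : Matrix n n R).row
  refine Eq.trans ?_ h.symm
  refine Finset.sum_congr rfl fun s _ => ?_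
  refine Eq.trans ?_ (Matrix.det_piecewise_one_eq_submatrix_det A s).symm
  exact minor_eq _ s

end Pool.Agent.Lib.MP_788af2_nt.DW
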