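import Pool.Agent.Lib.MP_788af2_nt.DW.Fred

/-! Products of infinite matrices and multiplicativity of `fdet`. -/

open Filter Topology Matrix

namespace Pool.Agent.Lib.MP_788af2_nt.DW

variable {I J : Type*} {R : Type*} [NormedCommRing R] [IsUltrametricDist R]

/-- The product of two infinite matrices. -/
noncomputable def mmul (A B : I → I → R) : I → I → R := fun i j => ∑' k, A i k * B k j

/-- The trace of an infinite matrix. -/
noncomputable def mtr (A : I → I → R) : R := ∑' i, A i i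

/-- `mpow M n` is `M ^ (n + 1)`. -/
noncomputable def mpow (M : I → I → R) : ℕ → I → I → R
  | 0 => M
  | n + 1 => mmul (mpow M n) M

open Classical in
/-- The rows outside `F` are replaced by zero. -/
noncomputable def cut (F : Finset I) (M : I → I → R) : I → I → R :=
  fun i j => if i ∈ F then M i j else 0

omit [IsUltrametricDist R] in
theorem Nuc.mono {M : I → I → R} {r r' φ : I → ℝ} (h : Nuc M r φ)
    (hr : Tendsto r' cofinite (𝓝 0)) (hle : ∀ i, r i ≤ r' i) : Nuc M r' φ :=
  ⟨h.pos, hr, fun i j => (h.le i j).trans (mul_le_mul_of_nonneg_right (hle i) (h.pos i).le)⟩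

theorem Nuc.add {A B : I → I → R} {r φ : I → ℝ} (hA : Nuc A r φ) (hB : Nuc B r φ) :
    Nuc (fun i j => A i j + B i j) r φ := by
  refine ⟨hA.pos, hA.lim, fun i j => ?_⟩
  rw [← le_div_iff₀ (hA.pos j)]
  exact (IsUltrametricDist.norm_add_le_max _ _).trans (max_le (hA.le_div i j) (hB.le_div i j))

omit [IsUltrametricDist R] in
theorem Nuc.smul {A : I → I → R} {r φ : I → ℝ} (hA : Nuc A r φ) {x : R} {c : ℝ} (hx : ‖x‖ ≤ c) :
    Nuc (fun i j => x * A i j) (fun i => c * r i) φ := by
  refine ⟨hA.pos, by simpa using hA.lim.const_mul c, fun i j => ?_⟩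
  calc ‖x * A i j‖ * φ j ≤ (‖x‖ * ‖A i j‖) * φ j :=
        mul_le_mul_of_nonneg_right (norm_mul_le _ _) (hA.pos j).le
    _ = ‖x‖ * (‖A i j‖ * φ j) := by ring
    _ ≤ c * (r i * φ i) := mul_le_mul hx (hA.le i j)
        (mul_nonneg (norm_nonneg _) (hA.pos j).le) ((norm_nonneg _).trans hx)
    _ = c * r i * φ i := by ring

omit [IsUltrametricDist R] in
theorem Nuc.cut {A : I → I → R} {r φ : I → ℝ} (hA : Nuc A r φ) (F : Finset I) :
    Nuc (cut F A) r φ := by
  refine ⟨hA.pos, hA.lim, fun i j => ?_⟩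
  unfold DW.cut
  split_ifs
  · exact hA.le i j
  · rw [norm_zero, zero_mul]
    exact mul_nonneg (hA.nonneg i) (hA.pos i).le

omit [IsUltrametricDist R] in
theorem tendsto_cut (A : I → I → R) (i j : I) :
    Tendsto (fun F : Finset I => cut F A i j) atTop (𝓝 (A i j)) := by
  refine tendsto_const_nhds.congr' ?_
  filter_upwards [eventually_ge_atTop {i}] with F hF
  simp only [cut, if_pos (Finset.singleton_subset_iff.mp hF)]

omit [IsUltrametricDist R] in
theorem Nuc.norm_mul_le {A B : I → I → R} {r r' φ : I → ℝ} (hA : Nuc A r φ) (hB : Nuc B r' φ)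
    (i k j : I) : ‖A i k * B k j‖ ≤ r i * φ i / φ j * r' k := by
  have h1 := hA.pos k
  have h2 := hA.pos j
  calc ‖A i k * B k j‖ ≤ ‖A i k‖ * ‖B k j‖ := _root_.norm_mul_le _ _
    _ ≤ (r i * φ i / φ k) * (r' k * φ k / φ j) := mul_le_mul (hA.le_div i k) (hB.le_div k j)
        (norm_nonneg _) ((norm_nonneg _).trans (hA.le_div i k))
    _ = _ := by field_simp

theorem Nuc.summable_mul [CompleteSpace R] {A B : I → I → R} {r r' φ : I → ℝ} (hA : Nuc A r φ)
    (hB : Nuc B r' φ) (i j : I) : Summable fun k => A i k * B k j :=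
  summable_of_le (by simpa using hB.lim.const_mul (r i * φ i / φ j)) fun k =>
    hA.norm_mul_le hB i k j

theorem Nuc.mmul {A B : I → I → R} {r r' φ : I → ℝ} (hA : Nuc A r φ) (hB : Nuc B r' φ) {c : ℝ}
    (hc0 : 0 ≤ c) (hc : ∀ k, r' k ≤ c) : Nuc (mmul A B) (fun i => r i * c) φ := by
  refine ⟨hA.pos, by simpa using hA.lim.mul_const c, fun i j => ?_⟩
  have h1 := hA.pos i
  have h2 := hA.pos j
  have h3 := hA.nonneg i
  rw [← le_div_iff₀ h2]
  refine IsUltrametricDist.norm_tsum_le_of_forall_le_of_nonneg (by positivity) fun k => ?_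
  refine (hA.norm_mul_le hB i k j).trans ?_
  calc r i * φ i / φ j * r' k ≤ r i * φ i / φ j * c :=
        mul_le_mul_of_nonneg_left (hc k) (by positivity)
    _ = _ := by ring

theorem Nuc.mpow {A : I → I → R} {r φ : I → ℝ} (hA : Nuc A r φ) {c : ℝ} (hc0 : 0 ≤ c)
    (hc : ∀ k, r k ≤ c) (n : ℕ) : Nuc (mpow A n) (fun i => r i * c ^ n) φ := by
  induction n with
  | zero => simpa [DW.mpow] using hA
  | succ n ih =>
    have := ih.mmul hA hc0 hc
    simpa only [DW.mpow, pow_succ, mul_assoc] using this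

omit [IsUltrametricDist R] in
theorem Nuc.norm_diag_le {A : I → I → R} {r φ : I → ℝ} (hA : Nuc A r φ) (i : I) :
    ‖A i i‖ ≤ r i :=
  le_of_mul_le_mul_right (hA.le i i) (hA.pos i)

variable [CompleteSpace R]

theorem tendsto_mmul {κ : Type*} {l : Filter κ} {A B : κ → I → I → R} {A' B' : I → I → R}
    {r r' φ : I → ℝ} (hr : Tendsto r' cofinite (𝓝 0)) (hA : ∀ᶠ k in l, Nuc (A k) r φ)
    (hB : ∀ᶠ k in l, Nuc (B k) r' φ) (hA' : ∀ i j, Tendsto (fun k => A k i j) l (𝓝 (A' i j)))
    (hB' : ∀ i j, Tendsto (fun k => B k i j) l (𝓝 (B' i j))) (i j : I) :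
    Tendsto (fun k => mmul (A k) (B k) i j) l (𝓝 (mmul A' B' i j)) := by
  refine tendsto_tsum_of_le (b := fun k => r i * φ i / φ j * r' k)
    (by simpa using hr.const_mul (r i * φ i / φ j)) ?_ fun k => (hA' i k).mul (hB' k j)
  filter_upwards [hA, hB] with t h1 h2 k using h1.norm_mul_le h2 i k j

theorem tendsto_mpow {κ : Type*} {l : Filter κ} {A : κ → I → I → R} {A' : I → I → R}
    {r φ : I → ℝ} (hr : Tendsto r cofinite (𝓝 0)) (hA : ∀ᶠ k in l, Nuc (A k) r φ)
    (hA' : ∀ i j, Tendsto (fun k => A k i j) l (𝓝 (A' i j))) (n : ℕ) (i j : I) :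
    Tendsto (fun k => mpow (A k) n i j) l (𝓝 (mpow A' n i j)) := by
  obtain ⟨c, hc0, hc⟩ := exists_bound_of_tendsto hr
  induction n generalizing i j with
  | zero => exact hA' i j
  | succ n ih => exact tendsto_mmul hr (hA.mono fun k hk => hk.mpow hc0 hc n) hA ih hA' i j

theorem tendsto_mtr {κ : Type*} {l : Filter κ} {A : κ → I → I → R} {A' : I → I → R}
    {r φ : I → ℝ} (hr : Tendsto r cofinite (𝓝 0)) (hA : ∀ᶠ k in l, Nuc (A k) r φ)
    (hA' : ∀ i j, Tendsto (fun k => A k i j) l (𝓝 (A' i j))) :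
    Tendsto (fun k => mtr (A k)) l (𝓝 (mtr A')) :=
  tendsto_tsum_of_le hr (hA.mono fun _ hk i => hk.norm_diag_le i) fun i => hA' i i

omit [IsUltrametricDist R] [CompleteSpace R] in
theorem mmul_cut [DecidableEq I] (F : Finset I) (A B : I → I → R) (i : I) (j : I) :
    mmul A (cut F B) i j = ∑ k : F, A i k * B k j := by
  unfold mmul
  rw [tsum_eq_sum (s := F) (fun k hk => by simp [cut, hk]), ← Finset.sum_coe_sort]
  exact Finset.sum_congr rfl fun k _ => by simp [cut, k.2]

omit [IsUltrametricDist R] [CompleteSpace R] in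
theorem fdet_of_rows [DecidableEq I] (F : Finset I) (M : I → I → R)
    (h : ∀ i, i ∉ F → ∀ j, M i j = 0) : fdet M = (1 + Matrix.of fun i j : F => M i j).det := by
  rw [fdet_embed M (Function.Embedding.subtype (· ∈ F)) (fun i hi => h i fun h1 => hi ⟨⟨i, h1⟩, rfl⟩),
    ← fdet_fintype]
  rfl

/-- `det (1 + M)` is the limit of its finite principal truncations. -/
theorem Nuc.tendsto_det [NormOneClass R] [DecidableEq I] {M : I → I → R} {r φ : I → ℝ}
    (h : Nuc M r φ) :
    Tendsto (fun F : Finset I => (1 + Matrix.of fun i j : F => M i j).det) atTop (𝓝 (fdet M)) := by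
  refine (tendsto_fdet h.nonneg h.lim (Eventually.of_forall h.cut) (tendsto_cut M)).congr
    fun F => ?_
  rw [fdet_of_rows F _ fun i hi j => by simp [DW.cut, hi]]
  congr 2
  ext i j
  simp [DW.cut]

/-- `det ((1 + A) (1 + B)) = det (1 + A) det (1 + B)`. -/
theorem fdet_mul [NormOneClass R] {A B : I → I → R} {r r' φ : I → ℝ} (hA : Nuc A r φ)
    (hB : Nuc B r' φ) : fdet (fun i j => A i j + B i j + mmul A B i j) = fdet A * fdet B := by
  classical
  obtain ⟨c, hc0, hc⟩ := exists_bound_of_tendsto hB.lim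
  have hlim : Tendsto (fun i => r i + r' i + r i * c) cofinite (𝓝 0) := by
    simpa using (hA.lim.add hB.lim).add (hA.lim.mul_const c)
  have h0 := hA.nonneg
  have h0' := hB.nonneg
  have h1 := tendsto_fdet (l := atTop)
    (N := fun F : Finset I => fun i j => cut F A i j + cut F B i j + mmul (cut F A) (cut F B) i j)
    (M := fun i j => A i j + B i j + mmul A B i j) (φ := φ)
    (fun i => add_nonneg (add_nonneg (h0 i) (h0' i)) (mul_nonneg (h0 i) hc0)) hlim
    (Eventually.of_forall fun F =>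
      (((hA.cut F).mono hlim fun i => by nlinarith [h0 i, h0' i]).add
        ((hB.cut F).mono hlim fun i => by nlinarith [h0 i, h0' i])).add
        (((hA.cut F).mmul (hB.cut F) hc0 hc).mono hlim fun i => by nlinarith [h0 i, h0' i]))
    fun i j => ((tendsto_cut A i j).add (tendsto_cut B i j)).add
      (tendsto_mmul hB.lim (Eventually.of_forall hA.cut) (Eventually.of_forall hB.cut)
        (tendsto_cut A) (tendsto_cut B) i j)
  refine tendsto_nhds_unique h1 ((hA.tendsto_det.mul hB.tendsto_det).congr fun F => ?_)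
  rw [fdet_of_rows F _ fun i hi j => by simp [cut, mmul, hi], ← Matrix.det_mul]
  congr 1
  ext i j
  simp only [mul_add, add_mul, one_mul, mul_one, Matrix.add_apply, Matrix.of_apply, mmul_cut,
    Matrix.mul_apply (M := Matrix.of fun i j : F => A i j)]
  simp only [cut, i.2, if_true]
  ring

end Pool.Agent.Lib.MP_788af2_nt.DW
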