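import Pool.Agent.Lib.MP_788af2_nt.DW.FredMul

/-! The operators `psi_q ∘ F` as matrices, their powers and the values of series at points. -/

open Filter Topology

namespace Pool.Agent.Lib.MP_788af2_nt.DW

variable {Λ Z : Type*} [AddCommGroup Λ] {R : Type*} [NormedCommRing R] [IsUltrametricDist R]

theorem nonarchRing : NonarchimedeanRing R where
  is_nonarchimedean := NonarchimedeanAddGroup.is_nonarchimedean

/-- The coefficients of `F (x ^ q) * G (x)`. -/
noncomputable def convd (q : ℕ) (F G : Λ → R) : Λ → R := fun z => ∑' w, F w * G (z - q • w)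

/-- The value of the series `F` at the point `χ`. -/
noncomputable def evp (χ F : Λ → R) : R := ∑' u, F u * χ u

/-- `F` is supported on `C`. -/
def Supp (C : AddSubmonoid Λ) (F : Λ → R) : Prop := ∀ u, u ∉ C → F u = 0

/-- A point: a function of norm at most one, multiplicative on `C`. -/
structure Pt (C : AddSubmonoid Λ) (χ : Λ → R) : Prop where
  le : ∀ u, ‖χ u‖ ≤ 1
  mul : ∀ u ∈ C, ∀ v ∈ C, χ (u + v) = χ u * χ v

omit [IsUltrametricDist R] in
theorem Pt.dil {C : AddSubmonoid Λ} {χ : Λ → R} (h : Pt C χ) (q : ℕ) :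
    Pt C fun u => χ (q • u) :=
  ⟨fun _ => h.le _, fun u hu v hv => by
    rw [nsmul_add, h.mul _ (C.nsmul_mem hu q) _ (C.nsmul_mem hv q)]⟩

omit [IsUltrametricDist R] in
theorem Supp.convd {C : AddSubmonoid Λ} {F G : Λ → R} (hF : Supp C F) (hG : Supp C G) (q : ℕ) :
    Supp C (convd q F G) := by
  intro z hz
  have : ∀ w, F w * G (z - q • w) = 0 := by
    intro w
    by_cases h1 : w ∈ C
    · rw [hG _ fun h2 => hz (by simpa using C.add_mem h2 (C.nsmul_mem h1 q)), mul_zero]
    · rw [hF w h1, zero_mul]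
  simp [DW.convd, this]

/-- The shear `(z, w) ↦ (w, z - q w)`. -/
def shear (q : ℕ) : Λ × Λ ≃ Λ × Λ where
  toFun p := (p.2, p.1 - q • p.2)
  invFun p := (p.2 + q • p.1, p.1)
  left_inv p := by simp
  right_inv p := by simp

variable [CompleteSpace R]

omit [AddCommGroup Λ] in
theorem summable_mul_of_le_one {F χ : Λ → R} (hF : Summable F) (h : ∀ u, ‖χ u‖ ≤ 1) :
    Summable fun u => F u * χ u :=
  summable_of_le (b := fun u => ‖F u‖) (by simpa using hF.tendsto_cofinite_zero.norm) fun u =>
    (norm_mul_le _ _).trans (mul_le_of_le_one_right (norm_nonneg _) (h u))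

omit [CompleteSpace R] in
theorem summable_shear {F G : Λ → R} (hF : Summable F) (hG : Summable G) (q : ℕ) :
    Summable fun p : Λ × Λ => F p.2 * G (p.1 - q • p.2) := by
  have := nonarchRing (R := R)
  exact ((shear q).summable_iff (f := fun p : Λ × Λ => F p.1 * G p.2)).mpr
    (hF.mul_of_nonarchimedean hG)

theorem summable_convd {F G : Λ → R} (hF : Summable F) (hG : Summable G) (q : ℕ) :
    Summable (convd q F G) :=
  (summable_shear hF hG q).prod

theorem evp_convd {C : AddSubmonoid Λ} {F G χ : Λ → R} (hF : Summable F) (hG : Summable G)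
    (hF' : Supp C F) (hG' : Supp C G) (hχ : Pt C χ) (q : ℕ) :
    evp χ (convd q F G) = evp (fun u => χ (q • u)) F * evp χ G := by
  have h1 := summable_mul_of_le_one hF (hχ.dil q).le
  have h2 := summable_mul_of_le_one hG hχ.le
  have h3 := summable_shear h1 h2 q
  have := nonarchRing (R := R)
  unfold evp
  rw [tsum_mul_tsum_of_nonarchimedean h1 h2, ← (shear q).tsum_eq]
  refine Eq.trans ?_ h3.tsum_prod.symm
  refine tsum_congr fun z => ?_
  rw [convd, ← ((summable_shear hF hG q).prod_factor z).tsum_mul_right]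
  refine tsum_congr fun w => ?_
  by_cases hw : w ∈ C
  · by_cases hz : z - q • w ∈ C
    · have h4 := hχ.mul _ (C.nsmul_mem hw q) _ hz
      rw [add_sub_cancel] at h4
      simp only [h4]
      ring
    · simp [hG' _ hz]
  · simp [hF' _ hw]

omit [CompleteSpace R] in
/-- Decay estimates are stable under products. -/
theorem norm_convd_le {F G : Λ → R} {a b c : Λ → ℝ} (q : ℕ) (hF : ∀ u, ‖F u‖ ≤ a u)
    (hG : ∀ u, ‖G u‖ ≤ b u) (h : ∀ w z, a w * b (z - q • w) ≤ c z) (z : Λ) :
    ‖convd q F G z‖ ≤ c z :=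
  IsUltrametricDist.norm_tsum_le_of_forall_le fun w =>
    ((norm_mul_le _ _).trans (mul_le_mul (hF _) (hG _) (norm_nonneg _)
      ((norm_nonneg _).trans (hF _)))).trans (h w z)

open Classical in
/-- The matrix of `psi_q ∘ F` on the monomials with exponents in `S`, for a family of series
indexed by `Z` and linked by `σ`. -/
noncomputable def op (S : Set Λ) (q : ℕ) (σ : Z → Z) (F : Z → Λ → R) : S × Z → S × Z → R :=
  fun u v => if v.2 = σ u.2 then F u.2 (q • (u.1 : Λ) - v.1) else 0

/-- The series `F i (x ^ (q ^ n)) * ... * F (σ ^ n i) (x)`. -/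
noncomputable def iter (q : ℕ) (σ : Z → Z) (F : Z → Λ → R) (i : Z) : ℕ → Λ → R
  | 0 => F i
  | n + 1 => convd q (iter q σ F i n) (F (σ^[n + 1] i))

omit [IsUltrametricDist R] [CompleteSpace R] in
theorem supp_iter {C : AddSubmonoid Λ} {F : Z → Λ → R} (hF : ∀ i, Supp C (F i)) (q : ℕ)
    (σ : Z → Z) (i : Z) (n : ℕ) : Supp C (iter q σ F i n) := by
  induction n with
  | zero => exact hF i
  | succ n ih => exact ih.convd (hF _) q

theorem summable_iter {F : Z → Λ → R} (hF : ∀ i, Summable (F i)) (q : ℕ)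
    (σ : Z → Z) (i : Z) (n : ℕ) : Summable (iter q σ F i n) := by
  induction n with
  | zero => exact hF i
  | succ n ih => exact summable_convd ih (hF _) q

theorem evp_iter {C : AddSubmonoid Λ} {F : Z → Λ → R} (hF : ∀ i, Summable (F i))
    (hF' : ∀ i, Supp C (F i)) (q : ℕ) (σ : Z → Z) (i : Z) (n : ℕ) {χ : Λ → R} (hχ : Pt C χ) :
    evp χ (iter q σ F i n) =
      ∏ k ∈ Finset.range (n + 1), evp (fun u => χ (q ^ (n - k) • u)) (F (σ^[k] i)) := by
  induction n generalizing χ with
  | zero => simp [iter]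
  | succ n ih =>
    rw [iter, evp_convd (summable_iter hF q σ i n) (hF _) (supp_iter hF' q σ i n) (hF' _) hχ,
      ih (hχ.dil q), Finset.prod_range_succ _ (n + 1)]
    congr 1
    · refine Finset.prod_congr rfl fun k hk => ?_
      have hk' := Finset.mem_range.mp hk
      simp only [show n + 1 - k = n - k + 1 by omega, pow_succ', mul_smul]
    · simp

omit [IsUltrametricDist R] [CompleteSpace R] in
open Classical in
theorem mpow_op {C : AddSubmonoid Λ} {F : Z → Λ → R} (hF' : ∀ i, Supp C (F i)) {S : Set Λ}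
    {q : ℕ} (hS : ∀ u ∈ S, ∀ v ∈ S, ∀ (w : Λ) (m : ℕ), m • u - w ∈ C → q • w - v ∈ C → w ∈ S)
    (σ : Z → Z) (n : ℕ) (u v : S × Z) : mpow (op S q σ F) n u v =
      if v.2 = σ^[n + 1] u.2 then iter q σ F u.2 n (q ^ (n + 1) • (u.1 : Λ) - v.1) else 0 := by
  induction n generalizing v with
  | zero => simp [mpow, op, iter]
  | succ n ih =>
    rw [mpow, mmul]
    simp only [ih]
    let e : S → S × Z := fun w => (w, σ^[n + 1] u.2)
    have he : Function.Injective e := fun a b hab => congrArg Prod.fst hab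
    rw [← he.tsum_eq (by
      intro w hw
      by_contra h1
      refine hw ?_
      have h2 : w.2 ≠ σ^[n + 1] u.2 := fun h3 => h1 ⟨w.1, Prod.ext rfl h3.symm⟩
      simp only [if_neg h2, zero_mul])]
    simp only [e, if_true, op, ← Function.iterate_succ_apply' σ]
    split_ifs with hv
    · rw [iter, convd]
      let f : Λ → R := fun w => iter q σ F u.2 n (q ^ (n + 1) • (u.1 : Λ) - w) *
        F (σ^[n + 1] u.2) (q • w - v.1)
      have h1 : ∑' w : S, f w = ∑' w, f w := by
        refine tsum_subtype_eq_of_support_subset fun w hw => ?_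
        by_contra h2
        refine hw ?_
        by_cases h3 : q ^ (n + 1) • (u.1 : Λ) - w ∈ C
        · have h4 : q • w - v.1 ∉ C := fun h4 => h2 (hS _ u.1.2 _ v.1.2 w _ h3 h4)
          simp only [f, hF' _ _ h4, mul_zero]
        · simp only [f, supp_iter hF' q σ u.2 n _ h3, zero_mul]
      refine h1.trans ?_
      rw [← (Equiv.subLeft (q ^ (n + 1) • (u.1 : Λ))).tsum_eq]
      refine tsum_congr fun w => ?_
      simp only [f, Equiv.subLeft_apply, sub_sub_cancel]
      congr 2
      rw [nsmul_sub, pow_succ' q (n + 1), mul_smul]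
      abel
    · simp

open Classical in
/-- The trace of a power of `psi_q ∘ F`. -/
theorem mtr_mpow_op [Fintype Z] {C : AddSubmonoid Λ} {F : Z → Λ → R} (hF : ∀ i, Summable (F i))
    (hF' : ∀ i, Supp C (F i)) {S : Set Λ}
    {q : ℕ} (hS : ∀ u ∈ S, ∀ v ∈ S, ∀ (w : Λ) (m : ℕ), m • u - w ∈ C → q • w - v ∈ C → w ∈ S)
    (σ : Z → Z) (n : ℕ) (hinj : Function.Injective fun u : Λ => q ^ (n + 1) • u - u) :
    mtr (mpow (op S q σ F) n) = ∑ i : Z,
      if i = σ^[n + 1] i then ∑' u : S, iter q σ F i n (q ^ (n + 1) • (u : Λ) - u) else 0 := by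
  have h1 : ∀ i, Summable fun u : S => if i = σ^[n + 1] i then
      iter q σ F i n (q ^ (n + 1) • (u : Λ) - u) else 0 := by
    intro i
    split_ifs
    · exact (summable_iter hF q σ i n).comp_injective (hinj.comp Subtype.val_injective)
    · exact summable_zero
  simp only [mtr, mpow_op hF' hS]
  have h2 : Summable fun p : Z × S => if p.1 = σ^[n + 1] p.1 then
      iter q σ F p.1 n (q ^ (n + 1) • (p.2 : Λ) - p.2) else 0 := by
    refine NonarchimedeanAddGroup.summable_of_tendsto_cofinite_zero ?_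
    intro U hU
    rw [Filter.mem_map, Filter.mem_cofinite]
    refine (Set.finite_iUnion fun i => ((h1 i).tendsto_cofinite_zero hU).image
      fun u => (i, u)).subset fun p hp => ?_
    exact Set.mem_iUnion.mpr ⟨p.1, p.2, hp, rfl⟩
  rw [← (Equiv.prodComm Z S).tsum_eq]
  refine h2.tsum_prod.trans ?_
  rw [tsum_fintype]
  refine Finset.sum_congr rfl fun i _ => ?_
  split_ifs
  · rfl
  · exact tsum_zero

/-- Orthogonality: the sum of the values at a finite family of points. -/
theorem sum_evp {P : Type*} [Fintype P] {C : AddSubmonoid Λ} {F : Λ → R} (hF : Summable F)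
    (hF' : Supp C F) {χ : P → Λ → R} (hχ : ∀ p u, ‖χ p u‖ ≤ 1) {S S' : Set Λ} {f : Λ → Λ}
    (hf : Function.Injective f) (hSS : Disjoint S S') {c c' : R}
    (h1 : ∀ u ∈ S, ∑ p, χ p (f u) = c) (h2 : ∀ u ∈ S', ∑ p, χ p (f u) = c')
    (h3 : ∀ z ∈ C, z ∉ f '' (S ∪ S') → ∑ p, χ p z = 0) :
    ∑ p, evp (χ p) F = c * ∑' u : S, F (f u) + c' * ∑' u : S', F (f u) := by
  unfold evp
  rw [← Summable.tsum_finsetSum fun p _ => summable_mul_of_le_one hF (hχ p)]
  simp only [← Finset.mul_sum]
  have h4 : Summable fun z => F z * ∑ p, χ p z := by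
    simp only [Finset.mul_sum]
    exact summable_sum fun p _ => summable_mul_of_le_one hF (hχ p)
  have h5 : ∑' z, F z * ∑ p, χ p z = ∑' u : (S ∪ S' : Set Λ), F (f u) * ∑ p, χ p (f u) := by
    refine ((hf.comp Subtype.val_injective).tsum_eq (f := fun z => F z * ∑ p, χ p z) ?_).symm
    intro z hz
    by_contra h6
    refine hz ?_
    by_cases h7 : z ∈ C
    · simp only [h3 z h7 (by rintro ⟨u, hu, rfl⟩; exact h6 ⟨⟨u, hu⟩, rfl⟩), mul_zero]
    · simp only [hF' z h7, zero_mul]
  have h8 := h4.comp_injective hf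
  have h9 := hF.comp_injective hf
  rw [h5, Summable.tsum_union_disjoint (f := fun u => F (f u) * ∑ p, χ p (f u)) hSS
    (h8.subtype _) (h8.subtype _), ← Summable.tsum_mul_left c (f := fun u : S => F (f u))
    (h9.subtype _), ← Summable.tsum_mul_left c' (f := fun u : S' => F (f u)) (h9.subtype _)]
  congr 1
  · exact tsum_congr fun u => by rw [h1 _ u.2, mul_comm]
  · exact tsum_congr fun u => by rw [h2 _ u.2, mul_comm]

end Pool.Agent.Lib.MP_788af2_nt.DW
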